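import Pool.Agent.Work.MP_510745_lc.Ver6

/-!
The halting set of the model: a c.e. set which is complete under `x ↦ ⟨e, x⟩` reductions.
-/

namespace Pool.Agent.BSig

open Filter

/-- `z = ⟨e, x⟩` and the claim of `e` about `x` is verified at a stage below `u`, for the
history with horizon `a` and initial state `y₀`. -/
def HR (u z a y₀ : ℕ) : Prop :=
  ∃ n, n < u ∧ ∃ st, st < u ∧ ∃ w, w < u ∧ ∃ st', st' < u ∧ ∃ D, D < u ∧ ∃ e, e < u ∧
    ∃ x, x < u ∧ (Hist a y₀ n st w ∧ TL a n st st' ∧ cP st' a D ∧ z = pr e x ∧ e < st ∧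
      Test st D e x 0 0)

set_option synthInstance.maxSize 100000 in
theorem d0_HR : D0 (fun v => HR (v 0) (v 1) (v 2) (v 3)) := by
  unfold HR; infer_instance

theorem TT_D {k n st' D : ℕ} (h : TT k n (xs k n) st') (hD : cP st' k D) :
    D = tow k (xs k n) := by
  have h1 := tt_tower h k (by omega)
  obtain ⟨_, v0, _, v', _, D', _, hTp, hPD, hT1, _⟩ := h
  exact hT1.2.2 k (cP_lt hD).1 D (cP_lt hD).2 _ (cP_lt h1).2 hD h1

theorem HR_iff {u z k : ℕ} (h : HR u z k (x0 k)) : ∃ n, n < k ∧ xs k n < u ∧ ∃ e x,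
    z = pr e x ∧ e < xs k n ∧ Test (xs k n) (tow k (xs k n)) e x 0 0 := by
  obtain ⟨n, _, st, hst, w, _, st', _, D, _, e, _, x, _, h1, h2, h3, h4, h5, h6⟩ := h
  have hn : n < k := h2.1.1
  obtain rfl := (hist_iff k n st hn.le).1 ⟨w, h1⟩
  obtain rfl := TT_D h2.1 h3
  exact ⟨n, hn, hst, e, x, h4, h5, h6⟩

/-- The halting set. -/
def Hal (z : MM sx) : Prop := ∃ n : ℕ, ∀ᶠ k in Uf, ∃ e x, rep z k = pr e x ∧
  e < xs k n ∧ Test (xs k n) (tow k (xs k n)) e x 0 0

theorem hxs_bd (n : ℕ) : Bd sx (fun k => xs k n) := sx_bd n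

theorem bd_pr {s : ℕ → ℕ → ℕ} (hs : Gr s) {f g : ℕ → ℕ} (hf : Bd s f) (hg : Bd s g) :
    Bd s (fun k => pr (f k) (g k)) := by
  unfold pr
  exact (((hf.add hs hg).mul hs (hf.add hs hg)).add hs hf)

theorem bd_tow (n : ℕ) : Bd sx (fun k => tow k (xs k n)) := by
  refine ⟨n + 1, ?_⟩
  filter_upwards [ev_ge (n + 1)] with k hk
  exact (xs_tow k n k (by omega) (by omega)).le

theorem ce_hal : CE (SS gr) Hal := by
  have hs : Gr sx := gr
  obtain ⟨f, hf⟩ := d0_HR.ex
  refine ⟨f, psh (mk _ bd_id) (fun _ => mk _ (hxs_bd 0)), fun z => ?_⟩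
  have key : ∀ u : MM sx, f.holds (SS hs) (psh u (psh z (psh (mk _ bd_id)
      (fun _ => mk _ (hxs_bd 0))))) ↔ ∀ᶠ k in Uf, HR (rep u k) (rep z k) k (x0 k) := by
    intro u
    rw [los3]
    constructor
    · intro h
      filter_upwards [h, rep_mk _ bd_id, rep_mk _ (hxs_bd 0)] with k h1 h2 h3
      rw [hf] at h1
      simp only [psh, h2, h3] at h1
      exact h1
    · intro h
      filter_upwards [h, rep_mk _ bd_id, rep_mk _ (hxs_bd 0)] with k h1 h2 h3
      rw [hf]
      simp only [psh, h2, h3]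
      exact h1
  simp only [key]
  constructor
  · rintro ⟨n, hn⟩
    have hB : Bd sx (fun k => 2 ^ (pr k (xs k (n + 1)) + 1) + tow k (xs k n) + pr k (rep z k) + 1) :=
      (((((bd_pr hs bd_id (hxs_bd (n + 1))).add hs (Bd.const hs 1)).pow hs).add hs
        (bd_tow n)).add hs (bd_pr hs bd_id (rep_bd z))).add hs (Bd.const hs 1)
    refine ⟨mk _ hB, ?_⟩
    filter_upwards [hn, rep_mk _ hB, ev_ge (n + 1)] with k h1 h2 hk
    obtain ⟨e, x, h3, h4, h5⟩ := h1
    rw [h2]
    have e1 : xs k (n + 1) ≤ pr k (xs k (n + 1)) := le_pr_right _ _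
    have e2 : pr k (xs k (n + 1)) + 1 < 2 ^ (pr k (xs k (n + 1)) + 1) := Nat.lt_two_pow_self
    have e3 : xs k n < xs k (n + 1) := xs_lt k n (by omega)
    have e4 : k ≤ pr k (xs k (n + 1)) := le_pr_left _ _
    have e5 : e ≤ rep z k := by rw [h3]; exact le_pr_left _ _
    have e6 : x ≤ rep z k := by rw [h3]; exact le_pr_right _ _
    have e7 : rep z k ≤ pr k (rep z k) := le_pr_right _ _
    obtain ⟨w, hw, hw2⟩ := hist_bound k n (by omega)
    have e8 : 2 ^ (pr n (xs k n) + 1) ≤ 2 ^ (pr k (xs k (n + 1)) + 1) :=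
      Nat.pow_le_pow_right (by norm_num) (by
        have := pr_mono (a := n) (b := xs k n) (c := k) (d := xs k (n + 1)) (by omega) e3.le
        omega)
    have hTT := xs_TT k n (by omega)
    exact ⟨n, by omega, xs k n, by omega, w, by omega, xs k (n + 1), by omega, tow k (xs k n),
      by omega, e, by omega, x, by omega, hw2, xs_TL k n (by omega), tt_tower hTT k (by omega), h3,
      h4, h5⟩
  · rintro ⟨u, hu⟩
    obtain ⟨N, hN⟩ := rep_bd u
    have h1 : ∀ᶠ k in Uf, ∃ n, n < N ∧ ∃ e x, rep z k = pr e x ∧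
        e < xs k n ∧ Test (xs k n) (tow k (xs k n)) e x 0 0 := by
      filter_upwards [hu, hN] with k h1 h2
      obtain ⟨n, hn, h3, e, x, h4, h5, h6⟩ := HR_iff h1
      refine ⟨n, ?_, e, x, h4, h5, h6⟩
      by_contra hc
      have h7 : xs k N ≤ xs k n := xs_le (by omega)
      have h8 : rep u k ≤ xs k N := h2
      omega
    obtain ⟨n, _, h2⟩ := ev_ex_lt N h1
    exact ⟨n, h2⟩

/-- The pairing function of the model. -/
noncomputable def prM {s : ℕ → ℕ → ℕ} (hs : Gr s) (x y : MM s) : MM s :=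
  mk _ (bd_pr hs (rep_bd x) (rep_bd y))

theorem rep_prM {s : ℕ → ℕ → ℕ} (hs : Gr s) (x y : MM s) :
    ∀ᶠ k in Uf, rep (prM hs x y) k = pr (rep x k) (rep y k) := rep_mk _ _

theorem prM_eq {s : ℕ → ℕ → ℕ} (hs : Gr s) (x y : MM s) : prM hs x y =
    (SS hs).add ((SS hs).mul ((SS hs).add x y) ((SS hs).add x y)) x := by
  apply ext_rep
  filter_upwards [rep_prM hs x y, rep_add hs x y,
    rep_mul hs ((SS hs).add x y) ((SS hs).add x y),
    rep_add hs ((SS hs).mul ((SS hs).add x y) ((SS hs).add x y)) x] with k h1 h2 h3 h4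
  rw [h1, h4, h3, h2]
  rfl

/-- Move the parameters of a formula to make room for `0, p, q`. -/
def sub3 : ℕ → Tm
  | 0 => .var 0
  | 1 => .var 1
  | (i + 2) => .var (i + 5)

theorem holds_sub3 {M : Type} (S : AStr M) (f : Fm) (y x a b d : M) (c : ℕ → M) :
    (f.subst sub3).holds S (psh y (psh x (psh a (psh b (psh d c))))) ↔
      f.holds S (psh y (psh x c)) := by
  rw [Fm.holds_subst]
  have : (fun i => (sub3 i).val S (psh y (psh x (psh a (psh b (psh d c)))))) =
      psh y (psh x c) := by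
    funext i
    match i with
    | 0 => rfl
    | 1 => rfl
    | (i + 2) => rfl
  rw [this]

theorem bd_cap {s : ℕ → ℕ → ℕ} (hs : Gr s) (c : ℕ → MM s) : ∀ m : ℕ,
    ∃ C : ℕ → ℕ, Bd s C ∧ ∀ k i, i < m → rep (c i) k < C k
  | 0 => ⟨fun _ => 0, Bd.const hs 0, fun k i hi => by omega⟩
  | (m + 1) => by
    obtain ⟨C, hC, h⟩ := bd_cap hs c m
    refine ⟨fun k => C k + (rep (c m) k + 1), hC.add hs ((rep_bd _).add hs (Bd.const hs 1)),
      fun k i hi => ?_⟩
    change rep (c i) k < C k + (rep (c m) k + 1)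
    by_cases h1 : i < m
    · have := h k i h1; omega
    · have : i = m := by omega
      subst this
      omega

theorem hal_complete {W : MM sx → Prop} (hW : CE (SS gr) W) :
    ∃ e : MM sx, ∀ x, W x ↔ Hal (prM gr e x) := by
  have hs : Gr sx := gr
  obtain ⟨f, c, hf⟩ := hW
  let f' : Fm := f.subst sub3
  obtain ⟨m1, hm1⟩ := Fm.ex_vlt f'
  obtain ⟨m2, hm2⟩ := Tm.ex_vlt (szF f')
  let m := max m1 m2
  have hm : f'.vlt m := Fm.vlt_mono (le_max_left _ _) f' hm1
  have hm' : (szF f').vlt m := Tm.vlt_mono (le_max_right _ _) _ hm2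
  obtain ⟨C, hC, hcC⟩ := bd_cap hs c m
  choose α hα hcod using fun k => ex_cod m (fun i => rep (c i) k) (C k) (hcC k)
  have hαB : Bd sx α := by
    refine ((bd_pr hs (Bd.const hs m) hC).pow hs).mono (Eventually.of_forall fun k => ?_)
    exact (hα k).le
  have heB : Bd sx (fun k => pr (codeF f') (pr m (α k))) :=
    bd_pr hs (Bd.const hs _) (bd_pr hs (Bd.const hs _) hαB)
  obtain ⟨j, hj⟩ := tm_bound (szF f')
  have key : ∀ n, ∀ᶠ k in Uf, rep (mk _ heB) k < xs k n → ∀ x,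
      (Test (xs k n) (tow k (xs k n)) (rep (mk _ heB) k) x 0 0 ↔ (x < xs k n ∧
        ∃ y, y < xs k n ∧ f.holds natS (psh y (psh x (fun i => rep (c i) k))))) := by
    intro n
    filter_upwards [rep_mk _ heB, ev_ge (j + n + 2)] with k h1 hk h2 x
    rw [h1] at h2 ⊢
    have hB2 : 2 ≤ xs k n := by
      have h3 := V_inv (k := k) (n := 0) (by omega)
      have h4 : V k 0 < xs k 0 := cD_lt h3.tp.1
      have h5 := h3.av
      have h6 : xs k 0 ≤ xs k n := xs_le (by omega)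
      omega
    have hα1 : α k ≤ pr (codeF f') (pr m (α k)) :=
      le_trans (le_pr_right m (α k)) (le_pr_right _ _)
    have hc : ∀ i, i < m → rep (c i) k < xs k n := by
      intro i hi
      have h3 := (hcod k (rep (c i) k + 1) i hi (rep (c i) k) (by omega)).2 rfl
      have h4 := h3.lt
      have h5 := le_pr_right i (rep (c i) k)
      omega
    have hD : (szF f').val natS (asg5 (xs k n) (xs k n) (xs k n) (xs k n)
        (fun i => rep (c i) k)) < tow k (xs k n) := by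
      have h3 := hj (asg5 (xs k n) (xs k n) (xs k n) (xs k n) (fun i => rep (c i) k)) (xs k n)
        hB2 m hm' (by
          intro i hi
          match i with
          | 0 => exact le_rfl
          | 1 => exact le_rfl
          | 2 => exact Nat.zero_le _
          | 3 => exact le_rfl
          | 4 => exact le_rfl
          | (i + 5) => exact (hc i (by omega)).le)
      refine lt_of_le_of_lt h3 ?_
      have h4 : tow (j + 1) (xs k n) ≤ tow k (xs k n) := tow_mono_left (by omega) _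
      exact lt_of_lt_of_le Nat.lt_two_pow_self h4
    rw [test_iff f' (hcod k _) hm hD]
    have h6 : 0 < xs k n := by omega
    constructor
    · rintro ⟨h7, -, -, y, hy, h8⟩
      exact ⟨h7, y, hy, (holds_sub3 natS f y x 0 0 0 _).1 h8⟩
    · rintro ⟨h7, y, hy, h8⟩
      exact ⟨h7, h6, h6, y, hy, (holds_sub3 natS f y x 0 0 0 _).2 h8⟩
  refine ⟨mk _ heB, fun x => ?_⟩
  rw [hf]
  constructor
  · rintro ⟨y, hy⟩
    rw [los2] at hy
    obtain ⟨n1, hn1⟩ := rep_bd x
    obtain ⟨n2, hn2⟩ := rep_bd y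
    obtain ⟨n3, hn3⟩ := rep_bd (mk _ heB)
    refine ⟨n1 + n2 + n3 + 1, ?_⟩
    filter_upwards [hy, hn1, hn2, hn3, key (n1 + n2 + n3 + 1), rep_prM hs (mk _ heB) x,
      ev_ge (n1 + n2 + n3 + 2)] with k h1 h2 h3 h4 h5 h6 hk
    have e1 : xs k n1 ≤ xs k (n1 + n2 + n3) := xs_le (by omega)
    have e2 : xs k n2 ≤ xs k (n1 + n2 + n3) := xs_le (by omega)
    have e3 : xs k n3 ≤ xs k (n1 + n2 + n3) := xs_le (by omega)
    have e4 : xs k (n1 + n2 + n3) < xs k (n1 + n2 + n3 + 1) := xs_lt k _ (by omega)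
    have h2' : rep x k ≤ xs k n1 := h2
    have h3' : rep y k ≤ xs k n2 := h3
    have h4' : rep (mk _ heB) k ≤ xs k n3 := h4
    refine ⟨rep (mk _ heB) k, rep x k, h6, by omega, ?_⟩
    rw [h5 (by omega)]
    exact ⟨by omega, rep y k, by omega, h1⟩
  · rintro ⟨n, hn⟩
    have h1 : ∀ᶠ k in Uf, ∃ y, y ≤ xs k n ∧ f.holds natS (psh y (psh (rep x k)
        (fun i => rep (c i) k))) := by
      filter_upwards [hn, key n, rep_prM hs (mk _ heB) x] with k h1 h2 h3
      obtain ⟨e, x', h4, h5, h6⟩ := h1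
      rw [h3] at h4
      obtain ⟨rfl, rfl⟩ := pr_inj h4
      obtain ⟨_, y, hy, h7⟩ := (h2 h5 _).1 h6
      exact ⟨y, hy.le, h7⟩
    obtain ⟨y, hy⟩ := choose_fn (hxs_bd n) h1
    refine ⟨y, ?_⟩
    rw [los2]
    exact hy.mono fun _ h => h.2

/-- The reduction relation of the map `x ↦ ⟨e, x⟩`. -/
def RF (k i p n e : ℕ) : Prop :=
  (i = 1 ∧ n = 0 ∧ ∀ x, x < k → (Bt k x → Bt p (pr e x))) ∨
  (i = 0 ∧ p = 0 ∧ ∀ x, x < k → (Bt k x → Bt n (pr e x)))

theorem d0_RF : D0 (fun v => RF (v 1) (v 2) (v 3) (v 4) (v 5)) := by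
  unfold RF; infer_instance

/-- Many-one reductions `x ↦ ⟨e, x⟩` are Turing reductions. -/
theorem red_of_pr {s : ℕ → ℕ → ℕ} (hs : Gr s) {W H : MM s → Prop} (e : MM s)
    (h : ∀ x, W x ↔ H (prM hs e x)) : Red (SS hs) W H := by
  obtain ⟨f, hf⟩ := d0_RF.ex
  refine ⟨fun k i p n => ∀ᶠ j in Uf, RF (rep k j) (rep i j) (rep p j) (rep n j) (rep e j),
    ⟨f, fun _ => e, fun k i p n => ?_⟩, fun K => ?_⟩
  · constructor
    · intro h1
      refine ⟨e, ?_⟩
      rw [los5]
      filter_upwards [h1] with j hj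
      exact (hf _).2 hj
    · rintro ⟨y, hy⟩
      rw [los5] at hy
      filter_upwards [hy] with j hj
      exact (hf _).1 hj
  · have hP : ∀ j, ∃ w, w < 2 ^ (pr (rep e j) (rep K j) + 1) ∧
        ∀ z, Bt w z ↔ ∃ x, Bt (rep K j) x ∧ z = pr (rep e j) x := fun j =>
      mk_code' _ _ (by
        rintro z ⟨x, hx, rfl⟩
        have := pr_mono (le_refl (rep e j)) hx.lt.le
        omega)
    choose w hw hw2 using hP
    have hwB : Bd s w := by
      refine (((bd_pr hs (rep_bd e) (rep_bd K)).add hs (Bd.const hs 1)).pow hs).mono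
        (Eventually.of_forall fun j => (hw j).le)
    have hel : ∀ z, Elt (SS hs) z (mk w hwB) → ∃ x, Elt (SS hs) x K ∧ z = prM hs e x := by
      intro z hz
      rw [elt_iff] at hz
      have h1 : ∀ᶠ j in Uf, ∃ x, x ≤ rep K j ∧ (Bt (rep K j) x ∧ rep z j = pr (rep e j) x) := by
        filter_upwards [hz, rep_mk w hwB] with j h1 h2
        rw [h2, hw2] at h1
        obtain ⟨x, hx, h3⟩ := h1
        exact ⟨x, hx.lt.le, hx, h3⟩
      obtain ⟨x, hx⟩ := choose_fn (rep_bd K) h1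
      refine ⟨x, (elt_iff hs _ _).2 (hx.mono fun _ h => h.2.1), ?_⟩
      apply ext_rep
      filter_upwards [hx, rep_prM hs e x] with j h1 h2
      rw [h2]; exact h1.2.2
    have hne : ∀ z, ¬ Elt (SS hs) z (SS hs).zero := by
      intro z hz
      rw [elt_iff] at hz
      obtain ⟨j, hj1, hj2⟩ := ev_exists (hz.and (rep_zero hs))
      rw [hj2] at hj1
      exact absurd hj1.lt (by omega)
    have hcl : ∀ p : MM s, (∀ᶠ j in Uf, ∀ x, x < rep K j → (Bt (rep K j) x →
        Bt (rep p j) (pr (rep e j) x))) → ∀ x, Elt (SS hs) x K → Elt (SS hs) (prM hs e x) p := by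
      intro p hp x hx
      rw [elt_iff] at hx ⊢
      filter_upwards [hp, hx, rep_prM hs e x] with j h1 h2 h3
      rw [h3]
      exact h1 _ h2.lt h2
    have hin : ∀ᶠ j in Uf, ∀ x, x < rep K j → (Bt (rep K j) x →
        Bt (rep (mk w hwB) j) (pr (rep e j) x)) := by
      filter_upwards [rep_mk w hwB] with j h2 x _ hx
      rw [h2, hw2]
      exact ⟨x, hx, rfl⟩
    refine ⟨⟨fun h1 => ?_, ?_⟩, ⟨fun h1 => ?_, ?_⟩⟩
    · refine ⟨mk w hwB, (SS hs).zero, ?_, ?_, fun z hz => absurd hz (hne z)⟩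
      · change ∀ᶠ j in Uf, _
        filter_upwards [hin, rep_one hs, rep_zero hs] with j h2 h3 h4
        exact Or.inl ⟨h3, h4, h2⟩
      · intro z hz
        obtain ⟨x, hx, rfl⟩ := hel z hz
        exact (h x).1 (h1 x hx)
    · rintro ⟨p, n, h1, h2, -⟩ x hx
      rw [h]
      refine h2 _ (hcl p ?_ x hx)
      have h1' : ∀ᶠ j in Uf, RF (rep K j) (rep (SS hs).one j) (rep p j) (rep n j) (rep e j) := h1
      filter_upwards [h1', rep_one hs] with j h3 h4
      rcases h3 with h3 | h3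
      · exact h3.2.2
      · omega
    · refine ⟨(SS hs).zero, mk w hwB, ?_, fun z hz => absurd hz (hne z), ?_⟩
      · change ∀ᶠ j in Uf, _
        filter_upwards [hin, rep_zero hs] with j h2 h4
        exact Or.inr ⟨h4, h4, h2⟩
      · intro z hz
        obtain ⟨x, hx, rfl⟩ := hel z hz
        exact fun hH => h1 x hx ((h x).2 hH)
    · rintro ⟨p, n, h1, -, h2⟩ x hx
      rw [h]
      refine h2 _ (hcl n ?_ x hx)
      have h1' : ∀ᶠ j in Uf, RF (rep K j) (rep (SS hs).zero j) (rep p j) (rep n j) (rep e j) := h1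
      filter_upwards [h1', rep_zero hs] with j h3 h4
      rcases h3 with h3 | h3
      · omega
      · exact h3.2.2

/-- The halting set is c.e. and complete. -/
theorem hal_main : ∃ H : MM sx → Prop, CE (SS gr) H ∧
    ∀ W : MM sx → Prop, CE (SS gr) W →
      (∃ e, ∀ x, W x ↔ H (prM gr e x)) ∧ Red (SS gr) W H :=
  ⟨Hal, ce_hal, fun _ hW => by
    obtain ⟨e, he⟩ := hal_complete hW
    exact ⟨⟨e, he⟩, red_of_pr gr e he⟩⟩

end Pool.Agent.BSig
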