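import Mathlib

/-!
# Primitive recursive relations: bounded quantifiers and bit-coded finite sets

`bs c` is the finite set coded by the bits of `c`, `cd s` the code of `s`.
-/

set_option autoImplicit false
open scoped Classical
open Finset

namespace Pool.MinCover

variable {α β : Type} [Primcodable α] [Primcodable β]

/-! ### bounded quantifiers -/

section
variable {p : α → ℕ → Prop} {f : α → ℕ}

lemma Pr.all_lt (hf : Primrec f) (hp : PrimrecRel p) : PrimrecPred fun a => ∀ x < f a, p a x := by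
  have h1 : PrimrecRel fun (x : ℕ) (a : α) => p a x := hp.comp Primrec.snd Primrec.fst
  have h2 : PrimrecPred fun a : α => ∀ x ∈ List.range (f a), p a x :=
    h1.forall_mem_list.comp (Primrec.list_range.comp hf) Primrec.id
  exact h2.of_eq fun a => by simp

lemma Pr.ex_lt (hf : Primrec f) (hp : PrimrecRel p) : PrimrecPred fun a => ∃ x < f a, p a x := by
  have h1 : PrimrecRel fun (x : ℕ) (a : α) => p a x := hp.comp Primrec.snd Primrec.fst
  have h2 : PrimrecPred fun a : α => ∃ x ∈ List.range (f a), p a x :=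
    h1.exists_mem_list.comp (Primrec.list_range.comp hf) Primrec.id
  exact h2.of_eq fun a => by simp

lemma Pr.all_le (hf : Primrec f) (hp : PrimrecRel p) : PrimrecPred fun a => ∀ x ≤ f a, p a x :=
  (Pr.all_lt (Primrec.succ.comp hf) hp).of_eq fun a => by simp

lemma Pr.ex_le (hf : Primrec f) (hp : PrimrecRel p) : PrimrecPred fun a => ∃ x ≤ f a, p a x :=
  (Pr.ex_lt (Primrec.succ.comp hf) hp).of_eq fun a => by simp

end

section
variable {p q : α → Prop}

lemma Pr.imp (hp : PrimrecPred p) (hq : PrimrecPred q) : PrimrecPred fun a => p a → q a :=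
  (hp.not.or hq).of_eq fun a => by tauto

lemma Pr.iff (hp : PrimrecPred p) (hq : PrimrecPred q) : PrimrecPred fun a => (p a ↔ q a) :=
  ((Pr.imp hp hq).and (Pr.imp hq hp)).of_eq fun a => by tauto

lemma Pr.const (P : Prop) : PrimrecPred fun _ : α => P := by
  by_cases h : P
  · exact (Primrec.eq.comp (Primrec.const 0) (Primrec.const 0)).of_eq fun a => by simp [h]
  · exact (Primrec.eq.comp (Primrec.const 0) (Primrec.const 1)).of_eq fun a => by simp [h]

lemma Pr.eq {f g : α → β} (hf : Primrec f) (hg : Primrec g) :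
    PrimrecPred fun a => f a = g a := Primrec.eq.comp hf hg

lemma Pr.le {f g : α → ℕ} (hf : Primrec f) (hg : Primrec g) :
    PrimrecPred fun a => f a ≤ g a := Primrec.nat_le.comp hf hg

lemma Pr.lt {f g : α → ℕ} (hf : Primrec f) (hg : Primrec g) :
    PrimrecPred fun a => f a < g a := Primrec.nat_lt.comp hf hg

end

/-! ### arithmetic -/

section
variable {f g : α → ℕ}

lemma Pr.add (hf : Primrec f) (hg : Primrec g) : Primrec fun a => f a + g a :=
  Primrec.nat_add.comp hf hg

lemma Pr.mul (hf : Primrec f) (hg : Primrec g) : Primrec fun a => f a * g a :=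
  Primrec.nat_mul.comp hf hg

lemma Pr.sub (hf : Primrec f) (hg : Primrec g) : Primrec fun a => f a - g a :=
  Primrec.nat_sub.comp hf hg

lemma Pr.div (hf : Primrec f) (hg : Primrec g) : Primrec fun a => f a / g a :=
  Primrec.nat_div.comp hf hg

lemma Pr.mod (hf : Primrec f) (hg : Primrec g) : Primrec fun a => f a % g a :=
  Primrec.nat_mod.comp hf hg

lemma Pr.pow (hf : Primrec f) (hg : Primrec g) : Primrec fun a => f a ^ g a := by
  have h1 : Primrec₂ fun a b : ℕ => a ^ b := Primrec₂.unpaired'.1 Nat.Primrec.pow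
  exact h1.comp hf hg

lemma Pr.pair (hf : Primrec f) (hg : Primrec g) : Primrec fun a => Nat.pair (f a) (g a) :=
  Primrec₂.natPair.comp hf hg

lemma Pr.unpair₁ (hf : Primrec f) : Primrec fun a => (f a).unpair.1 :=
  (Primrec.fst.comp Primrec.unpair).comp hf

lemma Pr.unpair₂ (hf : Primrec f) : Primrec fun a => (f a).unpair.2 :=
  (Primrec.snd.comp Primrec.unpair).comp hf

end

/-! ### bit-coded finite sets -/

/-- the set coded by `c` -/
def bs (c : ℕ) : Finset ℕ := c.bitIndices.toFinset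

/-- the code of a set -/
def cd (s : Finset ℕ) : ℕ := ∑ i ∈ s, 2 ^ i

lemma mem_bs {c i : ℕ} : i ∈ bs c ↔ c.testBit i = true := by
  rw [bs, List.mem_toFinset, Nat.mem_bitIndices]

@[simp] lemma bs_cd (s : Finset ℕ) : bs (cd s) = s := Finset.toFinset_bitIndices_sum_two_pow s

@[simp] lemma cd_bs (c : ℕ) : cd (bs c) = c := Finset.sum_toFinset_bitIndices_two_pow c

lemma cd_inj {s t : Finset ℕ} (h : cd s = cd t) : s = t := by
  rw [← bs_cd s, h, bs_cd]

lemma bs_inj {c d : ℕ} (h : bs c = bs d) : c = d := by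
  rw [← cd_bs c, h, cd_bs]

lemma cd_mono {s t : Finset ℕ} (h : s ⊆ t) : cd s ≤ cd t :=
  Finset.sum_le_sum_of_subset h

lemma bs_subset_le {c d : ℕ} (h : bs c ⊆ bs d) : c ≤ d := by
  rw [← cd_bs c, ← cd_bs d]
  exact cd_mono h

lemma two_pow_le {s : Finset ℕ} {i : ℕ} (h : i ∈ s) : 2 ^ i ≤ cd s :=
  Finset.single_le_sum (f := fun i => 2 ^ i) (fun _ _ => Nat.zero_le _) h

lemma lt_cd {s : Finset ℕ} {i : ℕ} (h : i ∈ s) : i < cd s :=
  Nat.lt_two_pow_self.trans_le (two_pow_le h)

lemma lt_of_mem_bs {c i : ℕ} (h : i ∈ bs c) : i < c := by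
  have h1 := lt_cd h
  rwa [cd_bs] at h1

lemma cd_lt {s : Finset ℕ} {n : ℕ} (h : ∀ i ∈ s, i < n) : cd s < 2 ^ n := by
  have h1 : s ⊆ Finset.range n := fun i hi => Finset.mem_range.2 (h i hi)
  refine (cd_mono h1).trans_lt ?_
  unfold cd
  rw [Nat.geomSum_eq le_rfl]
  have : 0 < 2 ^ n := Nat.two_pow_pos n
  omega

lemma lt_of_cd_lt {s : Finset ℕ} {n : ℕ} (h : cd s < 2 ^ n) : ∀ i ∈ s, i < n := by
  intro i hi
  exact (Nat.pow_lt_pow_iff_right (by norm_num)).1 ((two_pow_le hi).trans_lt h)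

lemma cd_lt_iff {s : Finset ℕ} {n : ℕ} : cd s < 2 ^ n ↔ ∀ i ∈ s, i < n :=
  ⟨lt_of_cd_lt, cd_lt⟩

@[simp] lemma bs_zero : bs 0 = ∅ := by simp [bs]

@[simp] lemma cd_empty : cd ∅ = 0 := by simp [cd]

lemma cd_singleton (i : ℕ) : cd {i} = 2 ^ i := by simp [cd]

/-- membership is primitive recursive -/
lemma Pr.mem {f g : α → ℕ} (hf : Primrec f) (hg : Primrec g) :
    PrimrecPred fun a => g a ∈ bs (f a) := by
  have h1 : PrimrecPred fun a => f a / 2 ^ g a % 2 = 1 :=
    Pr.eq (Pr.mod (Pr.div hf (Pr.pow (Primrec.const 2) hg)) (Primrec.const 2)) (Primrec.const 1)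
  refine h1.of_eq fun a => ?_
  rw [mem_bs, Nat.testBit_eq_decide_div_mod_eq]
  simp

/-- a set-valued function with a primitive recursive code -/
def PrS (S : α → Finset ℕ) : Prop := Primrec fun a => cd (S a)

lemma PrS.bs {f : α → ℕ} (hf : Primrec f) : PrS fun a => bs (f a) :=
  hf.of_eq fun a => (cd_bs _).symm

lemma PrS.comp {S : β → Finset ℕ} (hS : PrS S) {f : α → β} (hf : Primrec f) :
    PrS fun a => S (f a) :=
  Primrec.comp (f := fun b => cd (S b)) (g := f) hS hf

lemma PrS.const (s : Finset ℕ) : PrS fun _ : α => s := Primrec.const _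

lemma PrS.mem {S : α → Finset ℕ} (hS : PrS S) {g : α → ℕ} (hg : Primrec g) :
    PrimrecPred fun a => g a ∈ S a :=
  (Pr.mem hS hg).of_eq fun a => by rw [bs_cd]

lemma PrS.mem_rel {S : α → Finset ℕ} (hS : PrS S) : PrimrecRel fun a i => i ∈ S a :=
  PrS.mem (hS.comp Primrec.fst) Primrec.snd

/-- **comprehension**: a bounded set with primitive recursive membership -/
theorem PrS.of_mem {S : α → Finset ℕ} {f : α → ℕ} (hf : Primrec f)
    (hS : ∀ a, ∀ i ∈ S a, i < f a) (hm : PrimrecRel fun a i => i ∈ S a) : PrS S := by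
  refine Primrec.of_graph ⟨fun a => 2 ^ f a, Pr.pow (Primrec.const 2) hf,
    fun a => (cd_lt (hS a)).le⟩ ?_
  have h1 : PrimrecRel fun (a : α) (c : ℕ) => ∀ i < f a + c, (i ∈ S a ↔ i ∈ Pool.MinCover.bs c) := by
    apply Pr.all_lt (Pr.add (hf.comp Primrec.fst) Primrec.snd)
    apply Pr.iff
    · exact hm.comp (Primrec.fst.comp Primrec.fst) Primrec.snd
    · exact Pr.mem (Primrec.snd.comp Primrec.fst) Primrec.snd
  refine h1.of_eq ?_
  intro a c
  constructor
  · intro h
    have h2 : S a = Pool.MinCover.bs c := by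
      ext i
      by_cases hi : i < f a + c
      · exact h i hi
      · constructor
        · intro h3
          have := hS a i h3
          omega
        · intro h3
          have := lt_of_mem_bs h3
          omega
    rw [h2, cd_bs]
  · rintro rfl i _
    rw [bs_cd]

lemma PrS.eq {S T : α → Finset ℕ} (hS : PrS S) (hT : PrS T) : PrimrecPred fun a => S a = T a :=
  (Pr.eq hS hT).of_eq fun _ => ⟨fun h => cd_inj h, fun h => by rw [h]⟩

/-- quantifiers over the elements of a set -/
lemma PrS.all {S : α → Finset ℕ} {p : α → ℕ → Prop} (hS : PrS S) (hp : PrimrecRel p) :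
    PrimrecPred fun a => ∀ x ∈ S a, p a x := by
  have h1 : PrimrecPred fun a => ∀ x < cd (S a), (x ∈ S a → p a x) :=
    Pr.all_lt hS (Pr.imp (PrS.mem (hS.comp Primrec.fst) Primrec.snd) hp)
  exact h1.of_eq fun a => ⟨fun h x hx => h x (lt_cd hx) hx, fun h x _ hx => h x hx⟩

lemma PrS.ex {S : α → Finset ℕ} {p : α → ℕ → Prop} (hS : PrS S) (hp : PrimrecRel p) :
    PrimrecPred fun a => ∃ x ∈ S a, p a x := by
  have h1 : PrimrecPred fun a => ∃ x < cd (S a), (x ∈ S a ∧ p a x) :=
    Pr.ex_lt hS ((PrS.mem (hS.comp Primrec.fst) Primrec.snd).and hp)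
  exact h1.of_eq fun a => ⟨fun ⟨x, _, h⟩ => ⟨x, h⟩, fun ⟨x, h1, h2⟩ => ⟨x, lt_cd h1, h1, h2⟩⟩

lemma PrS.subset {S T : α → Finset ℕ} (hS : PrS S) (hT : PrS T) :
    PrimrecPred fun a => S a ⊆ T a :=
  PrS.all hS hT.mem_rel

lemma PrS.disjoint {S T : α → Finset ℕ} (hS : PrS S) (hT : PrS T) :
    PrimrecPred fun a => Disjoint (S a) (T a) :=
  (PrS.all hS (p := fun a x => x ∉ T a) (hT.mem_rel.not)).of_eq fun _ =>
    Finset.disjoint_left.symm

/-- quantifiers over the subsets of a set -/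
lemma PrS.all_sub {S : α → Finset ℕ} {p : α → Finset ℕ → Prop} (hS : PrS S)
    (hp : PrimrecRel fun (a : α) (c : ℕ) => p a (Pool.MinCover.bs c)) :
    PrimrecPred fun a => ∀ T ⊆ S a, p a T := by
  have h1 : PrimrecPred fun a => ∀ c ≤ cd (S a), (Pool.MinCover.bs c ⊆ S a →
      p a (Pool.MinCover.bs c)) :=
    Pr.all_le hS (Pr.imp (PrS.subset (PrS.bs Primrec.snd) (hS.comp Primrec.fst)) hp)
  refine h1.of_eq fun a => ⟨fun h T hT => ?_, fun h c _ hc => h _ hc⟩
  have h2 := h (cd T) (cd_mono hT) (by rwa [bs_cd])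
  rwa [bs_cd] at h2

lemma PrS.ex_sub {S : α → Finset ℕ} {p : α → Finset ℕ → Prop} (hS : PrS S)
    (hp : PrimrecRel fun (a : α) (c : ℕ) => p a (Pool.MinCover.bs c)) :
    PrimrecPred fun a => ∃ T ⊆ S a, p a T := by
  have h1 : PrimrecPred fun a => ∃ c ≤ cd (S a), (Pool.MinCover.bs c ⊆ S a ∧
      p a (Pool.MinCover.bs c)) :=
    Pr.ex_le hS ((PrS.subset (PrS.bs Primrec.snd) (hS.comp Primrec.fst)).and hp)
  refine h1.of_eq fun a => ⟨fun ⟨c, _, hc, h⟩ => ⟨_, hc, h⟩, fun ⟨T, hT, h⟩ => ?_⟩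
  exact ⟨cd T, cd_mono hT, by rwa [bs_cd], by rwa [bs_cd]⟩

/-! ### set operations -/

section
variable {S T : α → Finset ℕ} {f g : α → ℕ}

lemma PrS.range (hf : Primrec f) : PrS fun a => Finset.range (f a) :=
  PrS.of_mem hf (fun _ _ h => Finset.mem_range.1 h)
    ((Pr.lt Primrec.snd (hf.comp Primrec.fst)).of_eq fun _ => Finset.mem_range.symm)

lemma PrS.union (hS : PrS S) (hT : PrS T) : PrS fun a => S a ∪ T a := by
  refine PrS.of_mem (f := fun a => cd (S a) + cd (T a)) (Pr.add hS hT) ?_ ?_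
  · intro a i hi
    rcases Finset.mem_union.1 hi with h | h
    · have := lt_cd h
      omega
    · have := lt_cd h
      omega
  · exact (hS.mem_rel.or hT.mem_rel).of_eq fun _ => Finset.mem_union.symm

lemma PrS.filter {p : α → ℕ → Prop} (hS : PrS S) (hp : PrimrecRel p) :
    PrS fun a => (S a).filter (p a) := by
  refine PrS.of_mem (f := fun a => cd (S a)) hS ?_ ?_
  · intro a i hi
    exact lt_cd (Finset.mem_filter.1 hi).1
  · exact (hS.mem_rel.and hp).of_eq fun _ => Finset.mem_filter.symm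

lemma PrS.inter (hS : PrS S) (hT : PrS T) : PrS fun a => S a ∩ T a := by
  refine PrS.of_mem (f := fun a => cd (S a)) hS ?_ ?_
  · intro a i hi
    exact lt_cd (Finset.mem_inter.1 hi).1
  · exact (hS.mem_rel.and hT.mem_rel).of_eq fun _ => Finset.mem_inter.symm

lemma PrS.sdiff (hS : PrS S) (hT : PrS T) : PrS fun a => S a \ T a := by
  refine PrS.of_mem (f := fun a => cd (S a)) hS ?_ ?_
  · intro a i hi
    exact lt_cd (Finset.mem_sdiff.1 hi).1
  · exact (hS.mem_rel.and hT.mem_rel.not).of_eq fun _ => Finset.mem_sdiff.symm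

lemma PrS.singleton (hf : Primrec f) : PrS fun a => ({f a} : Finset ℕ) :=
  (Pr.pow (Primrec.const 2) hf).of_eq fun a => (cd_singleton _).symm

lemma PrS.insert (hf : Primrec f) (hS : PrS S) : PrS fun a => insert (f a) (S a) :=
  (PrS.union (PrS.singleton hf) hS).of_eq fun a => by
    change cd ({f a} ∪ S a) = cd (Insert.insert (f a) (S a))
    rw [← Finset.insert_eq]

lemma PrS.erase (hS : PrS S) (hf : Primrec f) : PrS fun a => (S a).erase (f a) :=
  (PrS.sdiff hS (PrS.singleton hf)).of_eq fun a => by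
    change cd (S a \ {f a}) = cd ((S a).erase (f a))
    rw [Finset.sdiff_singleton_eq_erase]

/-- images under a function with a primitive recursive bound -/
lemma PrS.image {F : α → ℕ → ℕ} (hS : PrS S) (hF : Primrec₂ F)
    {b : α → ℕ} (hb : Primrec b) (hbd : ∀ a, ∀ i ∈ S a, F a i < b a) :
    PrS fun a => (S a).image (F a) := by
  refine PrS.of_mem hb ?_ ?_
  · intro a i hi
    obtain ⟨j, hj, rfl⟩ := Finset.mem_image.1 hi
    exact hbd a j hj
  · have h1 : PrimrecRel fun (a : α) (i : ℕ) => ∃ j ∈ S a, F a j = i := by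
      apply PrS.ex (hS.comp Primrec.fst)
      exact Pr.eq (hF.comp (Primrec.fst.comp Primrec.fst) Primrec.snd)
        (Primrec.snd.comp Primrec.fst)
    exact h1.of_eq fun _ _ => Finset.mem_image.symm

/-- the number of elements is primitive recursive -/
lemma PrS.card (hS : PrS S) : Primrec fun a => (S a).card := by
  have h0 : Primrec₂ fun (c n : ℕ) => (Nat.rec (motive := fun _ => ℕ) 0
      (fun k IH => if k ∈ Pool.MinCover.bs c then IH + 1 else IH) n : ℕ) := by
    refine Primrec.nat_rec (f := fun _ : ℕ => 0)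
      (g := fun (c : ℕ) (p : ℕ × ℕ) => if p.1 ∈ Pool.MinCover.bs c then p.2 + 1 else p.2)
      (Primrec.const 0) ?_
    apply Primrec.ite
    · exact Pr.mem Primrec.fst (Primrec.fst.comp Primrec.snd)
    · exact Primrec.succ.comp (Primrec.snd.comp Primrec.snd)
    · exact Primrec.snd.comp Primrec.snd
  have h1 : ∀ c n : ℕ, (Nat.rec (motive := fun _ => ℕ) 0
      (fun k IH => if k ∈ Pool.MinCover.bs c then IH + 1 else IH) n : ℕ) =
      ((Finset.range n).filter fun k => k ∈ Pool.MinCover.bs c).card := by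
    intro c n
    induction n with
    | zero => simp
    | succ n ih =>
      rw [Finset.range_add_one, Finset.filter_insert]
      by_cases h : n ∈ Pool.MinCover.bs c
      · simp only [if_pos h, ih]
        rw [Finset.card_insert_of_notMem (by simp)]
      · simp only [if_neg h, ih]
  have h2 : Primrec fun a => (Nat.rec (motive := fun _ => ℕ) 0
      (fun k IH => if k ∈ Pool.MinCover.bs (cd (S a)) then IH + 1 else IH) (cd (S a)) : ℕ) :=
    h0.comp hS hS
  refine h2.of_eq fun a => ?_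
  rw [h1]
  congr 1
  ext i
  rw [Finset.mem_filter, Finset.mem_range, bs_cd]
  exact ⟨fun h => h.2, fun h => ⟨lt_cd h, h⟩⟩

end

/-! ### least numbers -/

/-- a function with primitive recursive graph and bound is primitive recursive -/
lemma Pr.of_graph {f : α → ℕ} {b : α → ℕ} (hb : Primrec b) (hf : ∀ a, f a ≤ b a)
    (h : PrimrecRel fun a y => f a = y) : Primrec f :=
  Primrec.of_graph ⟨b, hb, hf⟩ h

/-- being the least number with a property -/
lemma Pr.least {p : α → ℕ → Prop} (hp : PrimrecRel p) :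
    PrimrecRel fun a y => p a y ∧ ∀ z < y, ¬ p a z := by
  apply PrimrecPred.and hp
  apply Pr.all_lt Primrec.snd
  exact (hp.comp (Primrec.fst.comp Primrec.fst) Primrec.snd).not

end Pool.MinCover
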