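import Mathlib

/-!
# Codes with primitive recursive clocks and the fast function `FF`

* `exists_clock`: every primitive recursive function has a code `c` and a primitive recursive
  clock `K` with `evaln k c n = some (f n)` for all `k ≥ K n`.
* `FF x` is the least `k` at which a fixed code of `x ↦ ack x x` has halted on all `i ≤ x`. It is
  monotone, dominates every primitive recursive function, and its graph is primitive recursive.
-/

set_option autoImplicit false
open scoped Classical
open Nat.Partrec (Code)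
open Nat.Partrec.Code

namespace Pool.MinCover

lemma evaln_of_le {c : Code} {n x k k' : ℕ} (h : evaln k c n = some x) (hk : k ≤ k') :
    evaln k' c n = some x := by
  have h1 : x ∈ evaln k c n := h
  exact evaln_mono hk h1

/-- **codes with primitive recursive clocks** -/
theorem exists_clock {f : ℕ → ℕ} (hf : Nat.Primrec f) :
    ∃ (c : Code) (K : ℕ → ℕ), Primrec K ∧ ∀ n k, K n ≤ k → evaln k c n = some (f n) := by
  induction hf with
  | zero =>
    refine ⟨Code.zero, fun n => n + 1, Primrec.succ, fun n k hk => ?_⟩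
    replace hk : n + 1 ≤ k := hk
    obtain ⟨k, rfl⟩ : ∃ k', k = k' + 1 := ⟨k - 1, by omega⟩
    have : n ≤ k := by omega
    simp [evaln, this]
  | succ =>
    refine ⟨Code.succ, fun n => n + 1, Primrec.succ, fun n k hk => ?_⟩
    replace hk : n + 1 ≤ k := hk
    obtain ⟨k, rfl⟩ : ∃ k', k = k' + 1 := ⟨k - 1, by omega⟩
    have : n ≤ k := by omega
    simp [evaln, this]
  | left =>
    refine ⟨Code.left, fun n => n + 1, Primrec.succ, fun n k hk => ?_⟩
    replace hk : n + 1 ≤ k := hk
    obtain ⟨k, rfl⟩ : ∃ k', k = k' + 1 := ⟨k - 1, by omega⟩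
    have : n ≤ k := by omega
    simp [evaln, this]
  | right =>
    refine ⟨Code.right, fun n => n + 1, Primrec.succ, fun n k hk => ?_⟩
    replace hk : n + 1 ≤ k := hk
    obtain ⟨k, rfl⟩ : ∃ k', k = k' + 1 := ⟨k - 1, by omega⟩
    have : n ≤ k := by omega
    simp [evaln, this]
  | @pair f g hf hg ihf ihg =>
    obtain ⟨cf, Kf, hKf, h1⟩ := ihf
    obtain ⟨cg, Kg, hKg, h2⟩ := ihg
    refine ⟨Code.pair cf cg, fun n => n + 1 + (Kf n + Kg n),
      Primrec.nat_add.comp Primrec.succ (Primrec.nat_add.comp hKf hKg), fun n k hk => ?_⟩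
    replace hk : n + 1 + (Kf n + Kg n) ≤ k := hk
    obtain ⟨k, rfl⟩ : ∃ k', k = k' + 1 := ⟨k - 1, by omega⟩
    have h3 : n ≤ k := by omega
    have h4 := h1 n (k + 1) (by omega)
    have h5 := h2 n (k + 1) (by omega)
    simp [evaln, h3, h4, h5]
  | @comp f g hf hg ihf ihg =>
    obtain ⟨cf, Kf, hKf, h1⟩ := ihf
    obtain ⟨cg, Kg, hKg, h2⟩ := ihg
    refine ⟨Code.comp cf cg, fun n => n + 1 + (Kf (g n) + Kg n),
      Primrec.nat_add.comp Primrec.succ (Primrec.nat_add.comp
        (hKf.comp (Primrec.nat_iff.2 hg)) hKg), fun n k hk => ?_⟩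
    replace hk : n + 1 + (Kf (g n) + Kg n) ≤ k := hk
    obtain ⟨k, rfl⟩ : ∃ k', k = k' + 1 := ⟨k - 1, by omega⟩
    have h3 : n ≤ k := by omega
    have h4 := h1 (g n) (k + 1) (by omega)
    have h5 := h2 n (k + 1) (by omega)
    simp [evaln, h3, h4, h5]
  | @prec f g hf hg ihf ihg =>
    obtain ⟨cf, Kf, hKf, h1⟩ := ihf
    obtain ⟨cg, Kg, hKg, h2⟩ := ihg
    set h : ℕ → ℕ → ℕ := fun z n => Nat.rec (f z) (fun y IH => g (Nat.pair z (Nat.pair y IH))) n
      with hh
    have hf' := Primrec.nat_iff.2 hf
    have hg' := Primrec.nat_iff.2 hg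
    have hprim : Primrec₂ h := by
      refine Primrec.nat_rec (f := fun z => f z)
        (g := fun z (p : ℕ × ℕ) => g (Nat.pair z (Nat.pair p.1 p.2))) hf' ?_
      exact hg'.comp (Primrec₂.natPair.comp Primrec.fst (Primrec₂.natPair.comp
        (Primrec.fst.comp Primrec.snd) (Primrec.snd.comp Primrec.snd)))
    set KK : ℕ → ℕ → ℕ := fun z n => Nat.rec (Nat.pair z 0 + 1 + Kf z)
      (fun y IH => IH + (Nat.pair z (y + 1) + 2) + Kg (Nat.pair z (Nat.pair y (h z y)))) n with hKK
    have hKprim : Primrec₂ KK := by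
      refine Primrec.nat_rec (f := fun z => Nat.pair z 0 + 1 + Kf z)
        (g := fun z (p : ℕ × ℕ) => p.2 + (Nat.pair z (p.1 + 1) + 2) +
          Kg (Nat.pair z (Nat.pair p.1 (h z p.1)))) ?_ ?_
      · exact Primrec.nat_add.comp (Primrec.succ.comp (Primrec₂.natPair.comp Primrec.id
          (Primrec.const 0))) hKf
      · refine Primrec.nat_add.comp (Primrec.nat_add.comp (Primrec.snd.comp Primrec.snd)
          (Primrec.nat_add.comp (Primrec₂.natPair.comp Primrec.fst
            (Primrec.succ.comp (Primrec.fst.comp Primrec.snd))) (Primrec.const 2))) ?_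
        exact hKg.comp (Primrec₂.natPair.comp Primrec.fst (Primrec₂.natPair.comp
          (Primrec.fst.comp Primrec.snd)
          (hprim.comp Primrec.fst (Primrec.fst.comp Primrec.snd))))
    refine ⟨Code.prec cf cg, Nat.unpaired KK, ?_, ?_⟩
    · exact hKprim.comp (Primrec.fst.comp Primrec.unpair) (Primrec.snd.comp Primrec.unpair)
    · have key : ∀ z m k, KK z m ≤ k → evaln k (Code.prec cf cg) (Nat.pair z m) =
          some (h z m) := by
        intro z m
        induction m with
        | zero =>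
          intro k hk
          have hk' : Nat.pair z 0 + 1 + Kf z ≤ k := hk
          obtain ⟨k, rfl⟩ : ∃ k', k = k' + 1 := ⟨k - 1, by omega⟩
          have h3 : Nat.pair z 0 ≤ k := by omega
          have h4 := h1 z (k + 1) (by omega)
          simp [evaln, h3, h4, hh]
        | succ m ih =>
          intro k hk
          have hk' : KK z m + (Nat.pair z (m + 1) + 2) +
            Kg (Nat.pair z (Nat.pair m (h z m))) ≤ k := hk
          obtain ⟨k, rfl⟩ : ∃ k', k = k' + 1 := ⟨k - 1, by omega⟩
          have h3 : Nat.pair z (m + 1) ≤ k := by omega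
          have h4 := ih k (by omega)
          have h5 := h2 (Nat.pair z (Nat.pair m (h z m))) (k + 1) (by omega)
          simp only [evaln, h3, Nat.unpaired, Nat.unpair_pair, guard_true, h4]
          simpa using h5
      intro n k hk
      have e : Nat.pair n.unpair.1 n.unpair.2 = n := Nat.pair_unpair n
      have h3 := key n.unpair.1 n.unpair.2 k hk
      rw [e] at h3
      exact h3

/-! ### the fast function -/

lemma exists_cA : ∃ c : Code, ∀ x, eval c x = Part.some (ack x x) := by
  have h1 : Computable (fun x : ℕ => ack x x) := computable₂_ack.comp Computable.id Computable.id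
  have h2 : Nat.Partrec (fun x : ℕ => Part.some (ack x x)) := by
    have h3 := Partrec.nat_iff.1 h1.partrec
    exact h3
  obtain ⟨c, hc⟩ := exists_code.1 h2
  exact ⟨c, fun x => by rw [hc]⟩

/-- a code of `x ↦ ack x x` -/
noncomputable def cA : Code := Classical.choose exists_cA

lemma eval_cA (x : ℕ) : eval cA x = Part.some (ack x x) := Classical.choose_spec exists_cA x

/-- the code with the check of the value -/
noncomputable def c0 : Code := Code.comp Code.id cA

lemma eval_c0 (x : ℕ) : eval c0 x = Part.some (ack x x) := by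
  change (eval cA x >>= eval Code.id) = _
  rw [eval_cA]
  simp

lemma c0_halts (x : ℕ) : ∃ k, evaln k c0 x ≠ none := by
  have h1 : ack x x ∈ eval c0 x := by
    rw [eval_c0]
    exact Part.mem_some _
  obtain ⟨k, hk⟩ := evaln_complete.1 h1
  refine ⟨k, ?_⟩
  rw [Option.mem_def] at hk
  rw [hk]
  exact Option.some_ne_none _

lemma c0_bound {k x : ℕ} (h : evaln k c0 x ≠ none) : ack x x < k := by
  obtain ⟨y, hy⟩ := Option.ne_none_iff_exists'.1 h
  have hy' : y ∈ evaln k c0 x := hy
  have h1 : y = ack x x := by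
    have h2 := evaln_sound hy'
    rw [eval_c0] at h2
    exact Part.mem_some_iff.1 h2
  rcases k with _ | k
  · simp [evaln] at hy'
  · rw [c0] at hy
    simp only [evaln, Option.bind_eq_bind, Option.bind_eq_some_iff] at hy
    obtain ⟨_, _, v, hv, hv2⟩ := hy
    have h3 : y ∈ evaln (k + 1) Code.id v := hv2
    have h4 := evaln_bound h3
    have h5 := evaln_sound hv
    rw [eval_cA] at h5
    have h6 := Part.mem_some_iff.1 h5
    omega

lemma exists_FF (x : ℕ) : ∃ k, ∀ i ≤ x, evaln k c0 i ≠ none := by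
  choose k hk using c0_halts
  refine ⟨(Finset.range (x + 1)).sup k, fun i hi => ?_⟩
  obtain ⟨y, hy⟩ := Option.ne_none_iff_exists'.1 (hk i)
  rw [evaln_of_le hy (Finset.le_sup (Finset.mem_range.2 (by omega)))]
  exact Option.some_ne_none _

/-- the fast function -/
noncomputable def FF (x : ℕ) : ℕ := Nat.find (exists_FF x)

lemma FF_spec {x i : ℕ} (h : i ≤ x) : evaln (FF x) c0 i ≠ none := Nat.find_spec (exists_FF x) i h

lemma FF_le {x k : ℕ} (h : ∀ i ≤ x, evaln k c0 i ≠ none) : FF x ≤ k :=
  Nat.find_min' (exists_FF x) h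

lemma FF_le_iff {x k : ℕ} : FF x ≤ k ↔ ∀ i ≤ x, evaln k c0 i ≠ none := by
  refine ⟨fun h i hi => ?_, FF_le⟩
  obtain ⟨y, hy⟩ := Option.ne_none_iff_exists'.1 (FF_spec hi)
  rw [evaln_of_le hy h]
  exact Option.some_ne_none _

lemma FF_mono : Monotone FF := by
  intro x y hxy
  exact FF_le fun i hi => FF_spec (hi.trans hxy)

lemma ack_lt_FF (x : ℕ) : ack x x < FF x := c0_bound (FF_spec le_rfl)

lemma lt_FF (x : ℕ) : x < FF x := (lt_ack_right x x).trans (ack_lt_FF x)

/-- `FF` dominates every primitive recursive function -/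
theorem FF_dominates {f : ℕ → ℕ} (hf : Nat.Primrec f) : ∃ m, ∀ x, m ≤ x → f x < FF x := by
  obtain ⟨m, hm⟩ := exists_lt_ack_of_nat_primrec hf
  refine ⟨m, fun x hx => ?_⟩
  exact (hm x).trans ((ack_mono_left x hx).trans_lt (ack_lt_FF x))

theorem FF_dominates' {f : ℕ → ℕ} (hf : Primrec f) : ∃ m, ∀ x, m ≤ x → f x < FF x :=
  FF_dominates (Primrec.nat_iff.1 hf)

/-- the relation `FF x ≤ k` is primitive recursive -/
theorem primrec_FF_le : PrimrecRel fun x k : ℕ => FF x ≤ k := by
  have h1 : PrimrecRel fun i k : ℕ => evaln k c0 i ≠ none := by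
    have h2 : Primrec fun p : ℕ × ℕ => evaln p.2 c0 p.1 :=
      primrec_evaln.comp (Primrec.pair (Primrec.pair Primrec.snd (Primrec.const c0)) Primrec.fst)
    have h3 : PrimrecRel fun i k : ℕ => evaln k c0 i = none :=
      Primrec.eq.comp h2 (Primrec.const none)
    exact h3.not
  have h2 := h1.forall_lt
  have h3 : PrimrecRel fun x k : ℕ => ∀ i < x + 1, evaln k c0 i ≠ none :=
    h2.comp (Primrec.succ.comp Primrec.fst) Primrec.snd
  refine h3.of_eq ?_
  intro x k
  rw [FF_le_iff]
  constructor
  · intro h i hi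
    exact h i (by omega)
  · intro h i hi
    exact h i (by omega)

/-- the graph of `FF` is primitive recursive -/
theorem primrec_FF : PrimrecRel fun x y : ℕ => FF x = y := by
  have h1 : PrimrecRel fun x y : ℕ => FF x ≤ y ∧ ¬ FF x ≤ y - 1 :=
    PrimrecPred.and primrec_FF_le
      (primrec_FF_le.comp Primrec.fst (Primrec.nat_sub.comp Primrec.snd (Primrec.const 1))).not
  refine h1.of_eq ?_
  intro x y
  have := lt_FF x
  constructor
  · rintro ⟨h1, h2⟩
    omega
  · rintro rfl
    omega

end Pool.MinCover
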