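import Mathlib

/-!
MINCOVER (MP_510745_lc), block P3: the finite combinatorial lemma of one row.

A row configuration is `V` (alive atoms), `st : ℕ → Option α` (`none` = reserved,
`some j` = member of unit `j`), `lab : ℕ → Finset ℕ` (labels: finite sets of lower atoms).
-/

namespace Pool.MinCover

open Finset

universe u v w

/-- atoms of `S` whose label is satisfied in the lower state `X` -/
def restr (lab : ℕ → Finset ℕ) (S X : Finset ℕ) : Finset ℕ := S.filter (fun z => lab z ⊆ X)

/-- reserved atoms -/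
def resv {α : Type v} [DecidableEq α] (V : Finset ℕ) (st : ℕ → Option α) : Finset ℕ :=
  V.filter (fun z => st z = none)

/-- atoms of unit `j` -/
def unit {α : Type v} [DecidableEq α] (V : Finset ℕ) (st : ℕ → Option α) (j : α) : Finset ℕ :=
  V.filter (fun z => st z = some j)

/-- covered: every fact of the later state follows from the reserved part of the earlier one -/
def Cov {κ : Type u} {α : Type v} [DecidableEq α] (cl : Finset ℕ → Set κ) (V : Finset ℕ)
    (st : ℕ → Option α) (lab : ℕ → Finset ℕ) (X' X : Finset ℕ) : Prop :=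
  cl (X' ∪ restr lab V X') ⊆ cl (X ∪ restr lab (resv V st) X)

/-- independence of unit `j` -/
def Ind {κ : Type u} {α : Type v} [DecidableEq α] (cl : Finset ℕ → Set κ) (V : Finset ℕ)
    (st : ℕ → Option α) (lab : ℕ → Finset ℕ) (X' X : Finset ℕ) (j : α) : Prop :=
  ¬ (cl (X' ∪ (restr lab (resv V st) X' ∪ restr lab (unit V st j) X')) ⊆
      cl (X ∪ restr lab (V \ unit V st j) X))

/-- the extension relation (no kills), along a map `f` of the units -/
structure Ext {α : Type v} {β : Type w} (V B : Finset ℕ) (st : ℕ → Option α)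
    (lab : ℕ → Finset ℕ) (f : α → Option β) (st' : ℕ → Option β) (lab' : ℕ → Finset ℕ) :
    Prop where
  hst : ∀ z ∈ V, st' z = (st z).bind f
  keep : ∀ z ∈ V, (st z = none ∨ st' z ≠ none) → lab' z = lab z
  grow : ∀ z ∈ V, lab z ⊆ lab' z
  bdd : ∀ z ∈ V, lab' z ⊆ lab z ∪ B
  surj : ∀ j', ∃ j, f j = some j'

theorem Ext.trans {α β γ : Type*} {V B : Finset ℕ} {st : ℕ → Option α} {lab : ℕ → Finset ℕ}
    {f : α → Option β} {st' : ℕ → Option β} {lab' : ℕ → Finset ℕ}
    {f' : β → Option γ} {st'' : ℕ → Option γ} {lab'' : ℕ → Finset ℕ}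
    (h : Ext V B st lab f st' lab') (h' : Ext V B st' lab' f' st'' lab'') :
    Ext V B st lab (fun j => (f j).bind f') st'' lab'' := by
  refine ⟨?_, ?_, ?_, ?_, ?_⟩
  · intro z hz
    rw [h'.hst z hz, h.hst z hz]
    cases st z <;> rfl
  · intro z hz hk
    have h1 : st' z = none ∨ st'' z ≠ none := by
      rcases hk with hk | hk
      · left; rw [h.hst z hz, hk]; rfl
      · right; exact hk
    have h2 : st z = none ∨ st' z ≠ none := by
      rcases hk with hk | hk
      · left; exact hk
      · right
        intro h0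
        apply hk
        rw [h'.hst z hz, h0]; rfl
    rw [h'.keep z hz h1, h.keep z hz h2]
  · intro z hz
    exact (h.grow z hz).trans (h'.grow z hz)
  · intro z hz
    refine (h'.bdd z hz).trans ?_
    intro y hy
    rcases mem_union.1 hy with hy | hy
    · exact h.bdd z hz hy
    · exact mem_union_right _ hy
  · intro k
    obtain ⟨j', hj'⟩ := h'.surj k
    obtain ⟨j, hj⟩ := h.surj j'
    exact ⟨j, by rw [hj]; exact hj'⟩

section persist

set_option linter.unusedSectionVars false

variable {κ : Type u} {α : Type v} {β : Type w} [DecidableEq α] [DecidableEq β]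
  {V B : Finset ℕ} {st : ℕ → Option α} {lab : ℕ → Finset ℕ}
  {f : α → Option β} {st' : ℕ → Option β} {lab' : ℕ → Finset ℕ}
  {cl : Finset ℕ → Set κ} {X' X : Finset ℕ}

theorem Ext.restr_sub (h : Ext V B st lab f st' lab') {S : Finset ℕ} (hS : S ⊆ V)
    (Y : Finset ℕ) : restr lab' S Y ⊆ restr lab S Y := by
  intro z hz
  rw [restr, mem_filter] at hz ⊢
  exact ⟨hz.1, (h.grow z (hS hz.1)).trans hz.2⟩

theorem Ext.res_sub (h : Ext V B st lab f st' lab') (Y : Finset ℕ) :
    restr lab (resv V st) Y ⊆ restr lab' (resv V st') Y := by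
  intro z hz
  rw [restr, resv, mem_filter, mem_filter] at hz ⊢
  obtain ⟨⟨hV, h0⟩, hl⟩ := hz
  refine ⟨⟨hV, ?_⟩, ?_⟩
  · rw [h.hst z hV, h0]; rfl
  · rw [h.keep z hV (Or.inl h0)]; exact hl

theorem Ext.cov (h : Ext V B st lab f st' lab') (hcl : Monotone cl)
    (hc : Cov cl V st lab X' X) : Cov cl V st' lab' X' X := by
  unfold Cov at hc ⊢
  refine (hcl (union_subset_union_right (h.restr_sub (Subset.refl _) X'))).trans
    (hc.trans (hcl (union_subset_union_right (h.res_sub X))))

theorem unit_sub_of (h : Ext V B st lab f st' lab') {j : α} {j' : β} (hj : f j = some j') :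
    unit V st j ⊆ unit V st' j' := by
  intro z hz
  rw [unit, mem_filter] at hz ⊢
  refine ⟨hz.1, ?_⟩
  rw [h.hst z hz.1, hz.2]; exact hj

theorem Ext.ind (h : Ext V B st lab f st' lab') (hcl : Monotone cl) {j : α} {j' : β}
    (hj : f j = some j') (hc : Ind cl V st lab X' X j) : Ind cl V st' lab' X' X j' := by
  unfold Ind at hc ⊢
  intro hsub
  apply hc
  have hu := unit_sub_of h hj
  have h1 : restr lab (resv V st) X' ∪ restr lab (unit V st j) X' ⊆
      restr lab' (resv V st') X' ∪ restr lab' (unit V st' j') X' := by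
    refine union_subset_union (h.res_sub X') ?_
    intro z hz
    rw [restr, mem_filter] at hz ⊢
    refine ⟨hu hz.1, ?_⟩
    have hzV : z ∈ V := (mem_filter.1 hz.1).1
    have h2 : st' z ≠ none := by
      have := hu hz.1
      rw [unit, mem_filter] at this
      rw [this.2]; simp
    rw [h.keep z hzV (Or.inr h2)]; exact hz.2
  have h2 : restr lab' (V \ unit V st' j') X ⊆ restr lab (V \ unit V st j) X := by
    refine (h.restr_sub sdiff_subset X).trans ?_
    intro z hz
    rw [restr, mem_filter] at hz ⊢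
    refine ⟨?_, hz.2⟩
    rw [mem_sdiff] at hz ⊢
    exact ⟨hz.1.1, fun h3 => hz.1.2 (hu h3)⟩
  exact (hcl (union_subset_union_right h1)).trans
    (hsub.trans (hcl (union_subset_union_right h2)))

end persist

/-- grouping of `g ≥ q` indices into `q` blocks of at least `g / q` indices -/
theorem exists_block {g q : ℕ} (hq : 0 < q) (hg : q * q ≤ g) :
    ∃ f : Fin g → Fin q, ∀ j', q ≤ (univ.filter (fun j => f j = j')).card := by
  refine ⟨fun j => ⟨min (j.1 / q) (q - 1), by omega⟩, ?_⟩
  intro j'
  have hinj : Function.Injective (fun t : Fin q =>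
      (⟨j'.1 * q + t.1, by
        have h1 := j'.2
        have h2 := t.2
        have : j'.1 * q + q ≤ q * q := by
          have : (j'.1 + 1) * q ≤ q * q := Nat.mul_le_mul_right q (by omega)
          nlinarith
        omega⟩ : Fin g)) := by
    intro t t' h
    have := congrArg Fin.val h
    simp only at this
    exact Fin.ext (by omega)
  calc q = (univ : Finset (Fin q)).card := by simp
    _ ≤ _ := by
      refine card_le_card_of_injOn _ ?_ (hinj.injOn)
      intro t _
      simp only [coe_filter, mem_univ, true_and, Set.mem_ofPred_eq]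
      apply Fin.ext
      simp only
      have h1 := j'.2
      have h2 := t.2
      have : (j'.1 * q + t.1) / q = j'.1 := by
        rw [mul_comm, Nat.mul_add_div hq, Nat.div_eq_of_lt h2, Nat.add_zero]
      rw [this]
      omega

/-- one test -/
theorem step_one {κ : Type u} (cl : Finset ℕ → Set κ) (hcl : Monotone cl)
    (V : Finset ℕ) {g q : ℕ} (hq : 0 < q) (hg : q * q ≤ g) (st : ℕ → Option (Fin g))
    (lab : ℕ → Finset ℕ) (X' X : Finset ℕ) (hX : ¬ X ⊆ X') (B : Finset ℕ) (hB : X ⊆ B) :
    ∃ (f : Fin g → Option (Fin q)) (st' : ℕ → Option (Fin q)) (lab' : ℕ → Finset ℕ),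
      Ext V B st lab f st' lab' ∧
      (Cov cl V st' lab' X' X ∨ ∀ j, Ind cl V st' lab' X' X j) := by
  classical
  by_cases hcase : ∃ W : Finset (Fin g), W.card = q ∧
      cl (X' ∪ (restr lab (resv V st) X' ∪ restr lab (W.biUnion (unit V st)) X')) ⊆
        cl (X ∪ (restr lab (resv V st) X ∪ restr lab ((univ \ W).biUnion (unit V st)) X))
  · obtain ⟨W, hW, hsub⟩ := hcase
    have e : W ≃ Fin q := W.equivFinOfCardEq hW
    let f : Fin g → Option (Fin q) := fun j => if h : j ∈ W then some (e ⟨j, h⟩) else none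
    let st' : ℕ → Option (Fin q) := fun z => (st z).bind f
    let lab' : ℕ → Finset ℕ := fun z => if st z ≠ none ∧ st' z = none then lab z ∪ X else lab z
    refine ⟨f, st', lab', ⟨fun z _ => rfl, ?_, ?_, ?_, ?_⟩, Or.inl ?_⟩
    · intro z _ hk
      have : ¬ (st z ≠ none ∧ st' z = none) := by tauto
      simp only [lab', if_neg this]
    · intro z _
      simp only [lab']
      split_ifs
      · exact subset_union_left
      · exact Subset.refl _
    · intro z _
      simp only [lab']
      split_ifs
      · exact union_subset_union_right hB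
      · exact subset_union_left
    · intro j'
      refine ⟨(e.symm j').1, ?_⟩
      simp only [f]
      rw [dif_pos (e.symm j').2]
      simp
    · unfold Cov
      refine (hcl ?_).trans (hsub.trans (hcl ?_))
      · refine union_subset_union_right ?_
        intro z hz
        rw [restr, mem_filter] at hz
        obtain ⟨hV, hl⟩ := hz
        by_cases h1 : st z ≠ none ∧ st' z = none
        · simp only [lab', if_pos h1] at hl
          exact absurd (subset_union_right.trans hl) hX
        · simp only [lab', if_neg h1] at hl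
          by_cases h0 : st z = none
          · refine mem_union_left _ ?_
            rw [restr, mem_filter, resv, mem_filter]
            exact ⟨⟨hV, h0⟩, hl⟩
          · refine mem_union_right _ ?_
            obtain ⟨j, hj⟩ := Option.ne_none_iff_exists'.1 h0
            rw [restr, mem_filter, mem_biUnion]
            refine ⟨⟨j, ?_, ?_⟩, hl⟩
            · by_contra hjW
              apply h1
              refine ⟨h0, ?_⟩
              simp only [st', hj, Option.bind_some, f]
              rw [dif_neg hjW]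
            · rw [unit, mem_filter]; exact ⟨hV, hj⟩
      · refine union_subset_union_right ?_
        intro z hz
        rw [restr, mem_filter, resv, mem_filter]
        rcases mem_union.1 hz with hz | hz
        · rw [restr, mem_filter, resv, mem_filter] at hz
          obtain ⟨⟨hV, h0⟩, hl⟩ := hz
          have h2 : st' z = none := by simp only [st', h0]; rfl
          refine ⟨⟨hV, h2⟩, ?_⟩
          have h1 : ¬ (st z ≠ none ∧ st' z = none) := by tauto
          simp only [lab', if_neg h1]; exact hl
        · rw [restr, mem_filter, mem_biUnion] at hz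
          obtain ⟨⟨j, hjW, hj⟩, hl⟩ := hz
          rw [unit, mem_filter] at hj
          rw [mem_sdiff] at hjW
          have h2 : st' z = none := by
            simp only [st', hj.2, Option.bind_some, f]
            rw [dif_neg hjW.2]
          refine ⟨⟨hj.1, h2⟩, ?_⟩
          have h1 : st z ≠ none ∧ st' z = none := ⟨by rw [hj.2]; simp, h2⟩
          simp only [lab', if_pos h1]
          exact union_subset hl (Subset.refl _)
  · push Not at hcase
    obtain ⟨fb, hfb⟩ := exists_block hq hg
    let f : Fin g → Option (Fin q) := fun j => some (fb j)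
    let st' : ℕ → Option (Fin q) := fun z => (st z).bind f
    have hst' : ∀ z, st' z = none ↔ st z = none := by
      intro z
      simp only [st']
      cases st z <;> simp [f]
    refine ⟨f, st', lab, ⟨fun z _ => rfl, fun _ _ _ => rfl, fun _ _ => Subset.refl _,
      fun _ _ => subset_union_left, ?_⟩, Or.inr ?_⟩
    · intro j'
      have : 0 < (univ.filter (fun j => fb j = j')).card := lt_of_lt_of_le hq (hfb j')
      obtain ⟨j, hj⟩ := card_pos.1 this
      exact ⟨j, by simp only [f]; rw [(mem_filter.1 hj).2]⟩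
    · intro j'
      obtain ⟨W, hWs, hWc⟩ := exists_subset_card_eq (hfb j')
      have hn := hcase W hWc
      unfold Ind
      intro hsub
      apply hn
      refine (hcl ?_).trans (hsub.trans (hcl ?_))
      · refine union_subset_union_right (union_subset_union ?_ ?_)
        · intro z hz
          rw [restr, mem_filter, resv, mem_filter] at hz ⊢
          exact ⟨⟨hz.1.1, (hst' z).2 hz.1.2⟩, hz.2⟩
        · intro z hz
          rw [restr, mem_filter, mem_biUnion] at hz
          rw [restr, mem_filter, unit, mem_filter]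
          obtain ⟨⟨j, hj, hzj⟩, hl⟩ := hz
          rw [unit, mem_filter] at hzj
          refine ⟨⟨hzj.1, ?_⟩, hl⟩
          simp only [st', hzj.2, Option.bind_some, f]
          rw [(mem_filter.1 (hWs hj)).2]
      · refine union_subset_union_right ?_
        intro z hz
        rw [restr, mem_filter, mem_sdiff, unit, mem_filter] at hz
        obtain ⟨⟨hV, hnu⟩, hl⟩ := hz
        by_cases h0 : st z = none
        · refine mem_union_left _ ?_
          rw [restr, mem_filter, resv, mem_filter]
          exact ⟨⟨hV, h0⟩, hl⟩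
        · refine mem_union_right _ ?_
          obtain ⟨j, hj⟩ := Option.ne_none_iff_exists'.1 h0
          rw [restr, mem_filter, mem_biUnion]
          refine ⟨⟨j, ?_, ?_⟩, hl⟩
          · rw [mem_sdiff]
            refine ⟨mem_univ _, fun hjW => hnu ⟨hV, ?_⟩⟩
            simp only [st', hj, Option.bind_some, f]
            rw [(mem_filter.1 (hWs hjW)).2]
          · rw [unit, mem_filter]; exact ⟨hV, hj⟩

/-- all tests of a list -/
theorem tests_list {ι : Type*} {κ : Type u} (cl : ι → Finset ℕ → Set κ)
    (hcl : ∀ i, Monotone (cl i)) (V B : Finset ℕ) {q : ℕ} (hq : 0 < q) :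
    ∀ (T : List (ι × Finset ℕ × Finset ℕ)), (∀ t ∈ T, ¬ t.2.2 ⊆ t.2.1 ∧ t.2.2 ⊆ B) →
    ∀ (g : ℕ), q ^ (2 ^ T.length) ≤ g → ∀ (st : ℕ → Option (Fin g)) (lab : ℕ → Finset ℕ),
    ∃ (f : Fin g → Option (Fin q)) (st' : ℕ → Option (Fin q)) (lab' : ℕ → Finset ℕ),
      Ext V B st lab f st' lab' ∧
      ∀ t ∈ T, Cov (cl t.1) V st' lab' t.2.1 t.2.2 ∨
        ∀ j, Ind (cl t.1) V st' lab' t.2.1 t.2.2 j := by
  intro T
  induction T with
  | nil =>
    intro _ g hg st lab
    simp only [List.length_nil, pow_zero, pow_one] at hg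
    let f : Fin g → Option (Fin q) := fun j => some ⟨min j.1 (q - 1), by omega⟩
    refine ⟨f, fun z => (st z).bind f, lab, ⟨fun z _ => rfl, fun _ _ _ => rfl,
      fun _ _ => Subset.refl _, fun _ _ => subset_union_left, ?_⟩, by simp⟩
    intro j'
    refine ⟨⟨j'.1, by omega⟩, ?_⟩
    simp only [f]
    congr 1
    apply Fin.ext
    simp only
    omega
  | cons t T ih =>
    intro hT g hg st lab
    have ht := hT t (by simp)
    have hq1 : 0 < q ^ (2 ^ T.length) := Nat.pow_pos hq
    have hg1 : q ^ (2 ^ T.length) * q ^ (2 ^ T.length) ≤ g := by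
      refine le_trans (le_of_eq ?_) hg
      rw [List.length_cons, pow_succ 2, ← pow_add, mul_two]
    obtain ⟨f1, st1, lab1, h1, hd1⟩ := step_one (cl t.1) (hcl t.1) V hq1 hg1 st lab
      t.2.1 t.2.2 ht.1 B ht.2
    obtain ⟨f2, st2, lab2, h2, hd2⟩ := ih (fun t' ht' => hT t' (by simp [ht'])) _
      (le_refl _) st1 lab1
    refine ⟨_, st2, lab2, h1.trans h2, ?_⟩
    intro t' ht'
    rcases List.mem_cons.1 ht' with rfl | ht'
    · rcases hd1 with hc | hi
      · exact Or.inl (h2.cov (hcl _) hc)
      · right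
        intro j'
        obtain ⟨j, hj⟩ := h2.surj j'
        exact h2.ind (hcl _) hj (hi j)
    · exact hd2 t' ht'

/-- the family of all tests -/
noncomputable def allTests (n : ℕ) (low : Finset ℕ) : List (ℕ × Finset ℕ × Finset ℕ) :=
  ((range n ×ˢ (low.powerset ×ˢ low.powerset)).filter (fun t => ¬ t.2.2 ⊆ t.2.1)).toList

theorem allTests_length (n : ℕ) (low : Finset ℕ) :
    (allTests n low).length ≤ n * 4 ^ low.card := by
  unfold allTests
  rw [length_toList]
  refine (card_filter_le _ _).trans ?_
  rw [card_product, card_product, card_powerset, card_range, ← mul_pow]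
  norm_num

/-- numbers which are class codes over `low`: `0` = no class, `N + 1` = class `N` -/
def IsCls (low : Finset ℕ) (c : ℕ) : Prop := c = 0 ∨ ∃ N ∈ low, c = N + 1

/-- P3, core: from many disjoint sets of atoms to a configuration with all tests decided and
`p` units of every class. -/
theorem row_core {κ : Type u} (n : ℕ) (cl : ℕ → Finset ℕ → Set κ) (hcl : ∀ i, Monotone (cl i))
    (V low : Finset ℕ) {p g : ℕ} (hp : 0 < p)
    (hg : ((low.card + 1) * p) ^ (2 ^ (n * 4 ^ low.card)) ≤ g)
    (st : ℕ → Option (Fin g)) (lab : ℕ → Finset ℕ) (hlab : ∀ z ∈ V, lab z ⊆ low) :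
    ∃ (f : Fin g → Option ℕ) (st' : ℕ → Option ℕ) (lab' : ℕ → Finset ℕ) (U : Finset ℕ)
      (cls : ℕ → ℕ),
      U = range ((low.card + 1) * p) ∧
      (∀ z ∈ V, st' z = (st z).bind f) ∧
      (∀ j k, f j = some k → k ∈ U) ∧ (∀ k ∈ U, ∃ j, f j = some k) ∧
      (∀ z ∈ V, st z = none → lab' z = lab z) ∧
      (∀ z ∈ V, ∀ k, st' z = some k → cls k = 0 → lab' z = lab z) ∧
      (∀ z ∈ V, ∀ k N, st' z = some k → cls k = N + 1 → lab' z = insert N (lab z)) ∧
      (∀ z ∈ V, lab z ⊆ lab' z) ∧ (∀ z ∈ V, lab' z ⊆ low) ∧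
      (∀ k ∈ U, IsCls low (cls k)) ∧
      (∀ c, IsCls low c → p ≤ (U.filter (fun k => cls k = c)).card) ∧
      (∀ i < n, ∀ X' ⊆ low, ∀ X ⊆ low, ¬ X ⊆ X' →
        Cov (cl i) V st' lab' X' X ∨
        ∀ k ∈ U, IsCls X' (cls k) → Ind (cl i) V st' lab' X' X k) := by
  classical
  set q := (low.card + 1) * p with hqdef
  have hq : 0 < q := by positivity
  have hg' : q ^ (2 ^ (allTests n low).length) ≤ g := by
    refine le_trans ?_ hg
    exact Nat.pow_le_pow_right hq (Nat.pow_le_pow_right (by norm_num) (allTests_length n low))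
  obtain ⟨f0, st0, lab0, hE, hd⟩ := tests_list cl hcl V low hq (allTests n low) (by
    intro t ht
    unfold allTests at ht
    rw [mem_toList, mem_filter, mem_product, mem_product, mem_powerset, mem_powerset] at ht
    exact ⟨ht.2, ht.1.2.2⟩) g hg' st lab
  -- classes
  let Cls : Finset ℕ := insert 0 (low.image Nat.succ)
  have hCls : ∀ c, c ∈ Cls ↔ IsCls low c := by
    intro c
    simp only [Cls, mem_insert, mem_image, IsCls]
    constructor
    · rintro (h | ⟨N, hN, rfl⟩)
      · exact Or.inl h
      · exact Or.inr ⟨N, hN, rfl⟩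
    · rintro (h | ⟨N, hN, rfl⟩)
      · exact Or.inl h
      · exact Or.inr ⟨N, hN, rfl⟩
  have hCard : Cls.card = low.card + 1 := by
    simp only [Cls]
    rw [card_insert_of_notMem (by simp), card_image_of_injective _ Nat.succ_injective]
  let eC : Cls ≃ Fin (low.card + 1) := Cls.equivFinOfCardEq hCard
  let cf : Fin q → ℕ := fun j => (eC.symm (finProdFinEquiv.symm j).1).1
  have hcf : ∀ j, cf j ∈ Cls := fun j => (eC.symm (finProdFinEquiv.symm j).1).2
  let cls : ℕ → ℕ := fun k => if h : k < q then cf ⟨k, h⟩ else 0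
  let f : Fin g → Option ℕ := fun j => (f0 j).map Fin.val
  let st' : ℕ → Option ℕ := fun z => (st0 z).map Fin.val
  let lab' : ℕ → Finset ℕ := fun z =>
    match st0 z with
    | none => lab0 z
    | some j => if cf j = 0 then lab0 z else insert (cf j - 1) (lab0 z)
  have hclsv : ∀ j : Fin q, cls j.1 = cf j := by
    intro j
    simp only [cls]
    rw [dif_pos j.2]
  have hst'some : ∀ z k, st' z = some k ↔ ∃ j : Fin q, st0 z = some j ∧ j.1 = k := by
    intro z k
    simp only [st', Option.map_eq_some_iff]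
  have hst'none : ∀ z, st' z = none ↔ st0 z = none := by
    intro z
    simp only [st', Option.map_eq_none_iff]
  have hlabnone : ∀ z, st0 z = none → lab' z = lab0 z := by
    intro z h
    simp only [lab', h]
  have hlabsome : ∀ z j, st0 z = some j →
      lab' z = if cf j = 0 then lab0 z else insert (cf j - 1) (lab0 z) := by
    intro z j h
    simp only [lab', h]
  have hlab0' : ∀ z, lab0 z ⊆ lab' z := by
    intro z
    cases h : st0 z with
    | none => rw [hlabnone z h]
    | some j =>
      rw [hlabsome z j h]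
      split_ifs
      · exact Subset.refl _
      · exact subset_insert _ _
  have hkeep : ∀ z ∈ V, ∀ j, st0 z = some j → lab0 z = lab z := by
    intro z hz j hj
    exact hE.keep z hz (Or.inr (by rw [hj]; simp))
  refine ⟨f, st', lab', range q, cls, rfl, ?_, ?_, ?_, ?_, ?_, ?_, ?_, ?_, ?_, ?_, ?_⟩
  · intro z hz
    simp only [st', f]
    rw [hE.hst z hz]
    cases st z <;> rfl
  · intro j k h
    simp only [f, Option.map_eq_some_iff] at h
    obtain ⟨a, _, rfl⟩ := h
    exact mem_range.2 a.2
  · intro k hk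
    obtain ⟨j, hj⟩ := hE.surj ⟨k, mem_range.1 hk⟩
    exact ⟨j, by simp only [f, hj, Option.map_some]⟩
  · intro z hz h
    have h0 : st0 z = none := by rw [hE.hst z hz, h]; rfl
    rw [hlabnone z h0]
    exact hE.keep z hz (Or.inl h)
  · intro z hz k hk hc
    obtain ⟨j, hj, rfl⟩ := (hst'some z k).1 hk
    rw [hclsv] at hc
    rw [hlabsome z j hj, if_pos hc]
    exact hkeep z hz j hj
  · intro z hz k N hk hc
    obtain ⟨j, hj, rfl⟩ := (hst'some z k).1 hk
    rw [hclsv] at hc
    rw [hlabsome z j hj, if_neg (by omega), hkeep z hz j hj, hc]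
    rfl
  · intro z hz
    exact (hE.grow z hz).trans (hlab0' z)
  · intro z hz
    have hb : lab0 z ⊆ low := (hE.bdd z hz).trans (union_subset (hlab z hz) (Subset.refl _))
    cases h : st0 z with
    | none => rw [hlabnone z h]; exact hb
    | some j =>
      rw [hlabsome z j h]
      split_ifs with h0
      · exact hb
      · refine insert_subset ?_ hb
        rcases (hCls _).1 (hcf j) with h1 | ⟨N, hN, h1⟩
        · exact absurd h1 h0
        · rw [h1]; exact hN
  · intro k hk
    have : cls k = cf ⟨k, mem_range.1 hk⟩ := hclsv ⟨k, mem_range.1 hk⟩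
    rw [this]
    exact (hCls _).1 (hcf _)
  · intro c hc
    have hcC := (hCls c).2 hc
    let g0 : Fin p → ℕ := fun t => (finProdFinEquiv (eC ⟨c, hcC⟩, t)).1
    have hinj : Function.Injective g0 := by
      intro t t' h
      have h1 := finProdFinEquiv.injective (Fin.ext h)
      exact (Prod.ext_iff.1 h1).2
    calc p = (univ : Finset (Fin p)).card := by simp
      _ ≤ _ := by
        refine card_le_card_of_injOn g0 ?_ hinj.injOn
        intro t _
        simp only [coe_filter, mem_range, Set.mem_ofPred_eq]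
        refine ⟨(finProdFinEquiv (eC ⟨c, hcC⟩, t)).2, ?_⟩
        have h1 := hclsv (finProdFinEquiv (eC ⟨c, hcC⟩, t))
        have h2 : cf (finProdFinEquiv (eC ⟨c, hcC⟩, t)) = c := by
          simp only [cf, Equiv.symm_apply_apply]
        rw [h2] at h1
        exact h1
  · intro i hi X' hX' X hX hXX
    have hmem : (i, X', X) ∈ allTests n low := by
      unfold allTests
      rw [mem_toList, mem_filter, mem_product, mem_product, mem_powerset, mem_powerset, mem_range]
      exact ⟨⟨hi, hX', hX⟩, hXX⟩
    have hres : ∀ Y, restr lab' (resv V st') Y = restr lab0 (resv V st0) Y := by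
      intro Y
      ext z
      rw [restr, restr, resv, resv, mem_filter, mem_filter, mem_filter, mem_filter, hst'none]
      constructor
      · rintro ⟨⟨h1, h2⟩, h3⟩
        rw [hlabnone z h2] at h3
        exact ⟨⟨h1, h2⟩, h3⟩
      · rintro ⟨⟨h1, h2⟩, h3⟩
        rw [← hlabnone z h2] at h3
        exact ⟨⟨h1, h2⟩, h3⟩
    have hsub : ∀ S Y, restr lab' S Y ⊆ restr lab0 S Y := by
      intro S Y z hz
      rw [restr, mem_filter] at hz ⊢
      exact ⟨hz.1, (hlab0' z).trans hz.2⟩
    have hunit : ∀ j : Fin q, unit V st' j.1 = unit V st0 j := by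
      intro j
      ext z
      rw [unit, unit, mem_filter, mem_filter, hst'some]
      constructor
      · rintro ⟨h1, j', h2, h3⟩
        rw [← Fin.ext h3]; exact ⟨h1, h2⟩
      · rintro ⟨h1, h2⟩
        exact ⟨h1, j, h2, rfl⟩
    rcases hd _ hmem with hc | hi'
    · left
      unfold Cov at hc ⊢
      rw [hres]
      exact (hcl i (union_subset_union_right (hsub V X'))).trans hc
    · right
      intro k hk hck
      have hkq := mem_range.1 hk
      have h1 := hi' ⟨k, hkq⟩
      have hck' : IsCls X' (cf ⟨k, hkq⟩) := by rw [← hclsv]; exact hck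
      unfold Ind at h1 ⊢
      have hu := hunit ⟨k, hkq⟩
      simp only at hu
      rw [hres, hu]
      intro hs
      apply h1
      refine (hcl i ?_).trans (hs.trans (hcl i ?_))
      · refine union_subset_union_right (union_subset_union_right ?_)
        intro z hz
        rw [restr, mem_filter] at hz ⊢
        refine ⟨hz.1, ?_⟩
        have hz1 := (mem_filter.1 hz.1).2
        rw [hlabsome z _ hz1]
        split_ifs with h0
        · exact hz.2
        · refine insert_subset ?_ hz.2
          rcases hck' with h2 | ⟨N, hN, h2⟩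
          · exact absurd h2 h0
          · rw [h2]; exact hN
      · exact union_subset_union_right (hsub _ X)

/-- numbering of a finite set modulo `G` -/
theorem exists_numbering (S : Finset ℕ) {G : ℕ} (hG : 0 < G) (hS : G ≤ S.card) :
    ∃ m : ℕ → Fin G, ∀ j, ∃ u ∈ S, m u = j := by
  classical
  refine ⟨fun u => if h : u ∈ S then ⟨(S.equivFin ⟨u, h⟩).1 % G, Nat.mod_lt _ hG⟩ else ⟨0, hG⟩,
    ?_⟩
  intro j
  have hj : j.1 < S.card := lt_of_lt_of_le j.2 hS
  refine ⟨(S.equivFin.symm ⟨j.1, hj⟩).1, (S.equivFin.symm ⟨j.1, hj⟩).2, ?_⟩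
  beta_reduce
  rw [dif_pos (S.equivFin.symm ⟨j.1, hj⟩).2]
  apply Fin.ext
  simp [Nat.mod_eq_of_lt j.2]

/-- merging: every new unit gets one old unit of every class -/
theorem exists_merge (U0 : Finset ℕ) (cls0 : ℕ → ℕ) (P : ℕ → Prop) {G : ℕ} (hG : 0 < G)
    (hS : ∀ c, P c → G ≤ (U0.filter (fun k => cls0 k = c)).card) :
    ∃ m : ℕ → Fin G, ∀ c, P c → ∀ j, ∃ u ∈ U0, cls0 u = c ∧ m u = j := by
  classical
  have h1 : ∀ c, ∃ m : ℕ → Fin G, P c → ∀ j, ∃ u ∈ U0.filter (fun k => cls0 k = c), m u = j := by
    intro c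
    by_cases hc : P c
    · obtain ⟨m, hm⟩ := exists_numbering _ hG (hS c hc)
      exact ⟨m, fun _ => hm⟩
    · exact ⟨fun _ => ⟨0, hG⟩, fun h => absurd h hc⟩
  choose m hm using h1
  refine ⟨fun u => m (cls0 u) u, ?_⟩
  intro c hc j
  obtain ⟨u, hu, hj⟩ := hm c hc j
  rw [mem_filter] at hu
  exact ⟨u, hu.1, hu.2, by beta_reduce; rw [hu.2]; exact hj⟩

/-- The relation between an old row configuration (after kills) and the new one.
`V` alive atoms, `low` alive lower atoms; `(st0, lab0, U0, cls0)` old data, `U0` = the old unit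
numbers which were not killed; `(st, lab, U, cls)` new data.
`n` = number of operators, `p` = number of units of every class required. -/
structure RowStep {κ : Type u} (n : ℕ) (cl : ℕ → Finset ℕ → Set κ) (V low : Finset ℕ) (p : ℕ)
    (st : ℕ → Option ℕ) (lab : ℕ → Finset ℕ) (U : Finset ℕ) (cls : ℕ → ℕ) : Prop where
  mem_U : ∀ z ∈ V, ∀ k, st z = some k → k ∈ U
  lab_low : ∀ z ∈ V, lab z ⊆ low
  lab_cls : ∀ z ∈ V, ∀ k N, st z = some k → cls k = N + 1 → N ∈ lab z
  isCls : ∀ k ∈ U, IsCls low (cls k)
  many : ∀ c, IsCls low c → p ≤ (U.filter (fun k => cls k = c)).card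
  test : ∀ i < n, ∀ X' ⊆ low, ∀ X ⊆ low, ¬ X ⊆ X' →
    Cov (cl i) V st lab X' X ∨ ∀ k ∈ U, IsCls X' (cls k) → Ind (cl i) V st lab X' X k

/-- The part of the step relation which compares with the old configuration. -/
structure RowOld (V low : Finset ℕ)
    (st0 : ℕ → Option ℕ) (lab0 : ℕ → Finset ℕ) (U0 : Finset ℕ) (cls0 : ℕ → ℕ)
    (st : ℕ → Option ℕ) (lab : ℕ → Finset ℕ) (U : Finset ℕ) (cls : ℕ → ℕ) : Prop where
  res : ∀ z ∈ V, st0 z = none → st z = none ∧ lab z = lab0 z
  grow : ∀ z ∈ V, lab0 z ⊆ lab z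
  none : ∀ z ∈ V, ∀ k, st z = some k → cls k = 0 → lab z = lab0 z
  merge : ∀ k ∈ U, ∀ c, IsCls low c → ∃ u ∈ U0, cls0 u = c ∧ ∀ z ∈ V, st0 z = some u →
    st z = some k

/-- number of units of every class needed before the step -/
def need (n l p : ℕ) : ℕ := ((l + 1) * p) ^ (2 ^ (n * 4 ^ l))

theorem need_pos {n l p : ℕ} (hp : 0 < p) : 0 < need n l p := by
  unfold need; positivity

theorem row_step {κ : Type u} (n : ℕ) (cl : ℕ → Finset ℕ → Set κ) (hcl : ∀ i, Monotone (cl i))
    (V low : Finset ℕ) {p : ℕ} (hp : 0 < p)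
    (st0 : ℕ → Option ℕ) (lab0 : ℕ → Finset ℕ) (U0 : Finset ℕ) (cls0 : ℕ → ℕ)
    (hlab : ∀ z ∈ V, lab0 z ⊆ low)
    (hmany : ∀ c, IsCls low c → need n low.card p ≤ (U0.filter (fun k => cls0 k = c)).card) :
    ∃ (st : ℕ → Option ℕ) (lab : ℕ → Finset ℕ) (U : Finset ℕ) (cls : ℕ → ℕ),
      U = range ((low.card + 1) * p) ∧
      RowStep n cl V low p st lab U cls ∧ RowOld V low st0 lab0 U0 cls0 st lab U cls := by
  classical
  have hG : 0 < need n low.card p := need_pos hp
  obtain ⟨m, hm⟩ := exists_merge U0 cls0 (IsCls low) hG hmany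
  obtain ⟨f, st, lab, U, cls, hU, hst, hfU, hUf, hres, hnone, hcls, hgrow, hlow, hisc, hman, ht⟩ :=
    row_core n cl hcl V low hp (le_refl (need n low.card p)) (fun z => (st0 z).map m) lab0 hlab
  refine ⟨st, lab, U, cls, hU, ⟨?_, hlow, ?_, hisc, hman, ht⟩, ⟨?_, hgrow, hnone, ?_⟩⟩
  · intro z hz k hk
    rw [hst z hz] at hk
    cases h : (st0 z).map m with
    | none => rw [h] at hk; simp at hk
    | some j => rw [h] at hk; exact hfU j k hk
  · intro z hz k N hk hc
    rw [hcls z hz k N hk hc]
    exact mem_insert_self _ _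
  · intro z hz h
    refine ⟨?_, hres z hz (by simp only [h, Option.map_none])⟩
    rw [hst z hz]
    simp only [h, Option.map_none, Option.bind_none]
  · intro k hk c hc
    obtain ⟨j, hj⟩ := hUf k hk
    obtain ⟨u, hu, huc, huj⟩ := hm c hc j
    refine ⟨u, hu, huc, ?_⟩
    intro z hz hzu
    rw [hst z hz]
    simp only [hzu, Option.map_some, Option.bind_some, huj, hj]

/-- the initial configuration of a new row: singleton units -/
theorem row_init {κ : Type u} (n : ℕ) (cl : ℕ → Finset ℕ → Set κ) (hcl : ∀ i, Monotone (cl i))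
    (V low : Finset ℕ) {p : ℕ} (hp : 0 < p) (hV : need n low.card p ≤ V.card) :
    ∃ (st : ℕ → Option ℕ) (lab : ℕ → Finset ℕ) (U : Finset ℕ) (cls : ℕ → ℕ),
      U = range ((low.card + 1) * p) ∧
      RowStep n cl V low p st lab U cls ∧
      (∀ z ∈ V, ∀ k, st z = some k → cls k = 0 → lab z = ∅) ∧
      (∀ k ∈ U, ∃ z ∈ V, st z = some k) := by
  classical
  have hG : 0 < need n low.card p := need_pos hp
  obtain ⟨m, hm⟩ := exists_numbering V hG hV
  obtain ⟨f, st, lab, U, cls, hU, hst, hfU, hUf, hres, hnone, hcls, hgrow, hlow, hisc, hman, ht⟩ :=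
    row_core n cl hcl V low hp (le_refl (need n low.card p)) (fun z => some (m z))
      (fun _ => ∅) (fun _ _ => empty_subset _)
  refine ⟨st, lab, U, cls, hU, ⟨?_, hlow, ?_, hisc, hman, ht⟩, ?_, ?_⟩
  · intro z hz k hk
    rw [hst z hz] at hk
    exact hfU _ k hk
  · intro z hz k N hk hc
    rw [hcls z hz k N hk hc]
    exact mem_insert_self _ _
  · intro z hz k hk hc
    exact hnone z hz k hk hc
  · intro k hk
    obtain ⟨j, hj⟩ := hUf k hk
    obtain ⟨z, hz, hzj⟩ := hm j
    refine ⟨z, hz, ?_⟩
    rw [hst z hz]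
    simp only [Option.bind_some, hzj, hj]

end Pool.MinCover
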