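import Pool.Agent.Work.MP_510745_lc.MC.Halt
import Pool.Agent.Work.MP_510745_lc.Prime

/-!
The final form of the existence theorem, with the codes of the problem file.
-/

namespace Pool.Agent.BSig

theorem prM_prS (e x : M) : prM gr e x = prS S e x := prM_eq gr e x

theorem exists_minimal_cover : ∃ (N : Type) (T : AStr N), IsPAMinusExp T ∧ IDelta0 T ∧ BSigma1 T ∧
    ¬ ISigma1 T ∧ ∃ I A H : N → Prop, IsCut T I ∧ CE T I ∧ CE T A ∧ CE T H ∧
      (∀ W, CE T W → (∃ e, ∀ x, W x ↔ H (prS T e x)) ∧ RedP T W H) ∧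
      RedP T I A ∧ ¬ RedP T A I ∧
      ∀ B, CE T B → RedP T I B → RedP T B A → RedP T B I ∨ RedP T A B := by
  obtain ⟨h1, h2, h3, h4⟩ := minCover
  refine ⟨M, S, isPA gr, iDelta0 gr, bSigma1 gr, not_iSigma1, cutI, setA, Hal, isCut, ceI, h1,
    ce_hal, ?_, (redP_iff gr _ _).2 h2, fun h => h3 ((redP_iff gr _ _).1 h), ?_⟩
  · intro W hW
    obtain ⟨e, he⟩ := hal_complete hW
    refine ⟨⟨e, fun x => ?_⟩, (redP_iff gr _ _).2 (red_of_pr gr e he)⟩
    rw [he, prM_prS]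
  · intro B hB hIB hBA
    rw [redP_iff gr] at hIB hBA ⊢
    rw [redP_iff gr]
    by_contra hc
    push Not at hc
    exact h4 B hB ⟨hIB, hc.1, hBA, hc.2⟩

end Pool.Agent.BSig
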