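import Pool.Agent.Work.MP_510745_lc.MC.SigM

/-!
# `Σ₁` in a set, and Turing reducibility in `SS hs`
-/

namespace Pool.Agent.BSig

open Filter

variable {s : ℕ → ℕ → ℕ}

/-- `R` is `Σ₁` in `B` (with parameters): there is a `Σ₁` relation `Q(p, n, v)` such that `R v` iff
`Q(p, n, v)` for some coded `p ⊆ B` and `n` disjoint from `B`. -/
class SB (hs : Gr s) (B : MM s → Prop) (R : (ℕ → MM s) → Prop) : Prop where
  ex : ∃ Q : (ℕ → MM s) → Prop, SP (SS hs) Q ∧
    ∀ v, R v ↔ ∃ p n, Q (psh p (psh n v)) ∧ Pos (SS hs) p B ∧ Neg (SS hs) n B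

variable (hs : Gr s) {B : MM s → Prop}

theorem SB.congr {R R' : (ℕ → MM s) → Prop} (h : SB hs B R) (e : ∀ v, R v ↔ R' v) :
    SB hs B R' := by
  obtain ⟨Q, hQ, h⟩ := h.ex
  exact ⟨⟨Q, hQ, fun v => (e v).symm.trans (h v)⟩⟩

theorem pos_zero : Pos (SS hs) (SS hs).zero B := fun x hx => absurd hx (elt_zero hs x)
theorem neg_zero : Neg (SS hs) (SS hs).zero B := fun x hx => absurd hx (elt_zero hs x)

theorem SP.shift {R : (ℕ → MM s) → Prop} (h : SP (SS hs) R) (m : ℕ) :
    SP (SS hs) (fun v => R (fun i => v (i + m))) :=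
  SP.sub (SS hs) h (g := fun i v => v (i + m)) (fun i => mt_var _ _)

/-- `Σ₁` relations are `Σ₁` in `B`. -/
theorem SB.of_sp {R : (ℕ → MM s) → Prop} (hR : SP (SS hs) R) : SB hs B R :=
  ⟨⟨fun v => R (fun i => v (i + 2)), hR.shift hs 2, fun v =>
    ⟨fun h => ⟨(SS hs).zero, (SS hs).zero, h, pos_zero hs, neg_zero hs⟩, fun ⟨_, _, h, _, _⟩ => h⟩⟩⟩

instance (priority := 50) sb_of_sp {R : (ℕ → MM s) → Prop} [hR : SP (SS hs) R] : SB hs B R :=
  SB.of_sp hs hR

/-- Substitution in a relation `Σ₁` in `B`. -/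
theorem SB.sub {R : (ℕ → MM s) → Prop} (hR : SB hs B R) {g : ℕ → (ℕ → MM s) → MM s}
    (hg : ∀ i, Mt (SS hs) (g i)) : SB hs B (fun v => R (fun i => g i v)) := by
  obtain ⟨Q, hQ, h⟩ := hR.ex
  refine ⟨⟨fun v => Q (psh (v 0) (psh (v 1) (fun i => g i (fun j => v (j + 2))))), ?_, fun v => ?_⟩⟩
  · refine SP.congr (SS hs) (SP.sub (SS hs) hQ (g := fun i v => match i with
      | 0 => v 0
      | 1 => v 1
      | i + 2 => g i (fun j => v (j + 2))) fun i => ?_) fun v => ?_
    · match i with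
      | 0 => exact mt_var _ 0
      | 1 => exact mt_var _ 1
      | i + 2 =>
        obtain ⟨t, c, ht⟩ := (hg i).ex
        refine ⟨⟨t.subst (mix (fun j => .var (2 * (j + 2))) (fun j => .var (2 * j + 1))), c,
          fun v => ?_⟩⟩
        rw [Tm.val_subst, mix_map (fun u : Tm => u.val (SS hs) _)]
        simp only [Tm.val, mix_even, mix_odd]
        exact ht _
    · have e : (fun i => (match i with
          | 0 => v 0
          | 1 => v 1
          | i + 2 => g i (fun j => v (j + 2)) : MM s)) =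
          psh (v 0) (psh (v 1) (fun i => g i (fun j => v (j + 2)))) := by
        funext i
        match i with
        | 0 => rfl
        | 1 => rfl
        | i + 2 => rfl
      rw [← e]
  · exact h _

theorem SB.and {R R' : (ℕ → MM s) → Prop} (hR : SB hs B R) (hR' : SB hs B R') :
    SB hs B (fun v => R v ∧ R' v) := by
  obtain ⟨Q, hQ, h⟩ := hR.ex
  obtain ⟨Q', hQ', h'⟩ := hR'.ex
  -- `Q` with its first two arguments taken from positions `a`, `b` and the rest from `c`
  have key : ∀ {Q : (ℕ → MM s) → Prop}, SP (SS hs) Q → ∀ a b c : ℕ,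
      SP (SS hs) (fun v => Q (psh (v a) (psh (v b) (fun i => v (i + c))))) := by
    intro Q hQ a b c
    refine SP.congr (SS hs) (SP.sub (SS hs) hQ (g := fun i v => match i with
      | 0 => v a
      | 1 => v b
      | i + 2 => v (i + c)) fun i => ?_) fun v => ?_
    · match i with
      | 0 => exact mt_var _ _
      | 1 => exact mt_var _ _
      | i + 2 => exact mt_var _ _
    · have e : (fun i => (match i with
          | 0 => v a
          | 1 => v b
          | i + 2 => v (i + c) : MM s)) = psh (v a) (psh (v b) (fun i => v (i + c))) := by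
        funext i
        match i with
        | 0 => rfl
        | 1 => rfl
        | i + 2 => rfl
      rw [← e]
  -- the variables are `n', p', n, p, P, N, v`
  have k1 := key hQ 3 2 6
  have k2 := key hQ' 1 0 6
  refine ⟨⟨fun v => ∃ p, ∃ n, ∃ p', ∃ n', (Q (psh p (psh n (fun i => v (i + 2)))) ∧
    Q' (psh p' (psh n' (fun i => v (i + 2))))) ∧ (Sb hs p (v 0) ∧ Sb hs p' (v 0)) ∧
      (Sb hs n (v 1) ∧ Sb hs n' (v 1)), ?_, fun v => ?_⟩⟩
  · refine @sp_ex s hs _ ?_
    refine @sp_ex s hs _ ?_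
    refine @sp_ex s hs _ ?_
    refine @sp_ex s hs _ ?_
    refine @sp_and s hs _ _ (@sp_and s hs _ _ ?_ ?_) ?_
    · exact k1
    · exact k2
    · infer_instance
  · simp only [psh]
    rw [h, h']
    constructor
    · rintro ⟨⟨p, n, h1, h2, h3⟩, p', n', h1', h2', h3'⟩
      obtain ⟨P, hP⟩ := ex_union hs p p'
      obtain ⟨N, hN⟩ := ex_union hs n n'
      refine ⟨P, N, ⟨p, n, p', n', ⟨h1, h1'⟩, ⟨fun x hx => (hP x).2 (Or.inl hx),
        fun x hx => (hP x).2 (Or.inr hx)⟩, fun x hx => (hN x).2 (Or.inl hx),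
        fun x hx => (hN x).2 (Or.inr hx)⟩, fun x hx => ?_, fun x hx => ?_⟩
      · rcases (hP x).1 hx with hx | hx
        · exact h2 x hx
        · exact h2' x hx
      · rcases (hN x).1 hx with hx | hx
        · exact h3 x hx
        · exact h3' x hx
    · rintro ⟨P, N, ⟨p, n, p', n', ⟨h1, h1'⟩, ⟨h2, h2'⟩, h3, h3'⟩, hP, hN⟩
      exact ⟨⟨p, n, h1, hP.sb hs h2, hN.sb hs h3⟩, p', n', h1', hP.sb hs h2', hN.sb hs h3'⟩

/-- A `Σ₁` relation with its first two arguments taken from positions `a`, `b` and the rest from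
position `c` on. -/
theorem SP.mv {Q : (ℕ → MM s) → Prop} (hQ : SP (SS hs) Q) (a b c : ℕ) :
    SP (SS hs) (fun v => Q (psh (v a) (psh (v b) (fun i => v (i + c))))) := by
  refine SP.congr (SS hs) (SP.sub (SS hs) hQ (g := fun i v => match i with
    | 0 => v a
    | 1 => v b
    | i + 2 => v (i + c)) fun i => ?_) fun v => ?_
  · match i with
    | 0 => exact mt_var _ _
    | 1 => exact mt_var _ _
    | i + 2 => exact mt_var _ _
  · have e : (fun i => (match i with
        | 0 => v a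
        | 1 => v b
        | i + 2 => v (i + c) : MM s)) = psh (v a) (psh (v b) (fun i => v (i + c))) := by
      funext i
      match i with
      | 0 => rfl
      | 1 => rfl
      | i + 2 => rfl
    rw [← e]

theorem SB.or {R R' : (ℕ → MM s) → Prop} (hR : SB hs B R) (hR' : SB hs B R') :
    SB hs B (fun v => R v ∨ R' v) := by
  obtain ⟨Q, hQ, h⟩ := hR.ex
  obtain ⟨Q', hQ', h'⟩ := hR'.ex
  refine ⟨⟨fun v => Q v ∨ Q' v, hQ.or (SS hs) hQ', fun v => ?_⟩⟩
  rw [h, h']
  constructor
  · rintro (⟨p, n, h1, h2⟩ | ⟨p, n, h1, h2⟩)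
    · exact ⟨p, n, Or.inl h1, h2⟩
    · exact ⟨p, n, Or.inr h1, h2⟩
  · rintro ⟨p, n, h1 | h1, h2⟩
    · exact Or.inl ⟨p, n, h1, h2⟩
    · exact Or.inr ⟨p, n, h1, h2⟩

theorem SB.exists {R : MM s → (ℕ → MM s) → Prop}
    (hR : SB hs B (fun v => R (v 0) (fun i => v (i + 1)))) : SB hs B (fun v => ∃ x, R x v) := by
  obtain ⟨Q, hQ, h⟩ := hR.ex
  have hQ' : SP (SS hs) (fun v => Q (psh (v 1) (psh (v 2) (psh (v 0) (fun i => v (i + 3)))))) := by
    refine SP.congr (SS hs) (SP.sub (SS hs) hQ (g := fun i v => match i with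
      | 0 => v 1
      | 1 => v 2
      | 2 => v 0
      | i + 3 => v (i + 3)) fun i => ?_) fun v => ?_
    · match i with
      | 0 => exact mt_var _ _
      | 1 => exact mt_var _ _
      | 2 => exact mt_var _ _
      | i + 3 => exact mt_var _ _
    · have e : (fun i => (match i with
          | 0 => v 1
          | 1 => v 2
          | 2 => v 0
          | i + 3 => v (i + 3) : MM s)) =
          psh (v 1) (psh (v 2) (psh (v 0) (fun i => v (i + 3)))) := by
        funext i
        match i with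
        | 0 => rfl
        | 1 => rfl
        | 2 => rfl
        | i + 3 => rfl
      rw [← e]
  refine ⟨⟨fun v => ∃ x, Q (psh (v 0) (psh (v 1) (psh x (fun i => v (i + 2))))),
    @sp_ex s hs (fun x v => Q (psh (v 0) (psh (v 1) (psh x (fun i => v (i + 2)))))) hQ',
    fun v => ?_⟩⟩
  simp only [psh]
  constructor
  · rintro ⟨x, hx⟩
    obtain ⟨p, n, h1, h2⟩ := (h (psh x v)).1 hx
    exact ⟨p, n, ⟨x, h1⟩, h2⟩
  · rintro ⟨p, n, ⟨x, h1⟩, h2⟩
    exact ⟨x, (h (psh x v)).2 ⟨p, n, h1, h2⟩⟩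

instance sb_and {R R' : (ℕ → MM s) → Prop} [hR : SB hs B R] [hR' : SB hs B R'] :
    SB hs B (fun v => R v ∧ R' v) := hR.and hs hR'

instance sb_or {R R' : (ℕ → MM s) → Prop} [hR : SB hs B R] [hR' : SB hs B R'] :
    SB hs B (fun v => R v ∨ R' v) := hR.or hs hR'

instance sb_ex {R : MM s → (ℕ → MM s) → Prop}
    [hR : SB hs B (fun v => R (v 0) (fun i => v (i + 1)))] :
    SB hs B (fun v => ∃ x, R x v) := SB.exists hs hR

theorem Mt.shift {g : (ℕ → MM s) → MM s} (hg : Mt (SS hs) g) (m : ℕ) :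
    Mt (SS hs) (fun v => g (fun j => v (j + m))) := by
  obtain ⟨t, c, ht⟩ := hg.ex
  refine ⟨⟨t.subst (mix (fun j => .var (2 * (j + m))) (fun j => .var (2 * j + 1))), c,
    fun v => ?_⟩⟩
  rw [Tm.val_subst, mix_map (fun u : Tm => u.val (SS hs) _)]
  simp only [Tm.val, mix_even, mix_odd]
  exact ht _

/-- The positive queries. -/
instance sb_pos {g : (ℕ → MM s) → MM s} [hg : Mt (SS hs) g] :
    SB hs B (fun v => Pos (SS hs) (g v) B) := by
  have h1 : Mt (SS hs) (fun v : ℕ → MM s => g (fun j => v (j + 2))) := hg.shift hs 2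
  refine ⟨⟨fun v => Sb hs (g (fun j => v (j + 2))) (v 0), inferInstance, fun v => ?_⟩⟩
  constructor
  · intro h
    exact ⟨g v, (SS hs).zero, fun x hx => hx, h, neg_zero hs⟩
  · rintro ⟨p, n, h1, h2, _⟩
    exact h2.sb hs h1

/-- The negative queries. -/
instance sb_neg {g : (ℕ → MM s) → MM s} [hg : Mt (SS hs) g] :
    SB hs B (fun v => Neg (SS hs) (g v) B) := by
  have h1 : Mt (SS hs) (fun v : ℕ → MM s => g (fun j => v (j + 2))) := hg.shift hs 2
  refine ⟨⟨fun v => Sb hs (g (fun j => v (j + 2))) (v 1), inferInstance, fun v => ?_⟩⟩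
  constructor
  · intro h
    exact ⟨(SS hs).zero, g v, fun x hx => hx, pos_zero hs, h⟩
  · rintro ⟨p, n, h1, _, h2⟩
    exact h2.sb hs h1

/-- Turing reducibility in terms of `Σ₁` in `B`. -/
theorem red_iff (A B : MM s → Prop) : Red (SS hs) A B ↔
    SB hs B (fun v => Pos (SS hs) (v 0) A) ∧ SB hs B (fun v => Neg (SS hs) (v 0) A) := by
  constructor
  · rintro ⟨F, hF, h⟩
    rw [ce4_iff_sp] at hF
    have key : ∀ d : MM s, SP (SS hs) (fun v => F (v 2) d (v 0) (v 1)) := by
      intro d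
      exact SP.sub (SS hs) hF (g := fun i v => match i with
        | 0 => v 2
        | 1 => d
        | 2 => v 0
        | i + 3 => v (i + 1 - i)) (fun i => by
          match i with
          | 0 => exact mt_var _ _
          | 1 => exact mt_const _ _
          | 2 => exact mt_var _ _
          | i + 3 => exact mt_var _ _) |>.congr (SS hs) (fun v => by simp)
    exact ⟨⟨⟨_, key (SS hs).one, fun v => (h (v 0)).1⟩⟩, ⟨⟨_, key (SS hs).zero, fun v => (h (v 0)).2⟩⟩⟩
  · rintro ⟨⟨⟨Q, hQ, h⟩⟩, ⟨⟨Q', hQ', h'⟩⟩⟩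
    have key : ∀ {Q : (ℕ → MM s) → Prop}, SP (SS hs) Q →
        SP (SS hs) (fun v => Q (psh (v 2) (psh (v 3) (fun _ => v 0)))) := by
      intro Q hQ
      refine SP.congr (SS hs) (SP.sub (SS hs) hQ (g := fun i v => match i with
        | 0 => v 2
        | 1 => v 3
        | _ => v 0) fun i => ?_) fun v => ?_
      · match i with
        | 0 => exact mt_var _ _
        | 1 => exact mt_var _ _
        | i + 2 => exact mt_var _ _
      · have e : (fun i => (match i with
            | 0 => v 2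
            | 1 => v 3
            | _ => v 0 : MM s)) = psh (v 2) (psh (v 3) (fun _ => v 0)) := by
          funext i
          match i with
          | 0 => rfl
          | 1 => rfl
          | i + 2 => rfl
        rw [← e]
    refine ⟨fun k i p n => (i = (SS hs).one ∧ Q (psh p (psh n (fun _ => k)))) ∨
      (i = (SS hs).zero ∧ Q' (psh p (psh n (fun _ => k)))), ?_, fun k => ⟨?_, ?_⟩⟩
    · rw [ce4_iff_sp]
      have k1 := key hQ
      have k2 := key hQ'
      exact sp_or hs (hR := sp_and hs (hQ := k1)) (hQ := sp_and hs (hQ := k2))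
    · have := h (fun _ => k)
      rw [this]
      refine exists_congr fun p => exists_congr fun n => and_congr ?_ Iff.rfl
      constructor
      · intro h; exact Or.inl ⟨rfl, h⟩
      · rintro (⟨_, h⟩ | ⟨h, _⟩)
        · exact h
        · exact absurd h (one_ne_zero hs)
    · have := h' (fun _ => k)
      rw [this]
      refine exists_congr fun p => exists_congr fun n => and_congr ?_ Iff.rfl
      constructor
      · intro h; exact Or.inr ⟨rfl, h⟩
      · rintro (⟨h, _⟩ | ⟨_, h⟩)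
        · exact absurd h.symm (one_ne_zero hs)
        · exact h

theorem Red.refl (A : MM s → Prop) : Red (SS hs) A A :=
  (red_iff hs A A).2 ⟨inferInstance, inferInstance⟩

/-- Transfer: if `C ≤_T B` then `Σ₁` in `C` implies `Σ₁` in `B`. -/
theorem SB.trans {B C : MM s → Prop} {R : (ℕ → MM s) → Prop} (h : Red (SS hs) C B)
    (hR : SB hs C R) : SB hs B R := by
  obtain ⟨h1, h2⟩ := (red_iff hs C B).1 h
  obtain ⟨Q, hQ, hR⟩ := hR.ex
  have k1 : SB hs B (fun v : ℕ → MM s => Pos (SS hs) (v 1) C) :=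
    SB.sub hs h1 (g := fun _ v => v 1) (fun _ => mt_var _ _)
  have k2 : SB hs B (fun v : ℕ → MM s => Neg (SS hs) (v 0) C) := h2
  refine SB.congr hs (R := fun v => ∃ p, ∃ n, Q (psh p (psh n v)) ∧
    Pos (SS hs) p C ∧ Neg (SS hs) n C) ?_ (fun v => (hR v).symm)
  have k3 : SB hs B (fun v : ℕ → MM s => Q (psh (v 1) (psh (v 0) (fun i => v (i + 2))))) :=
    SB.of_sp hs (hQ.mv hs 1 0 2)
  refine @sb_ex s hs B _ ?_
  refine @sb_ex s hs B _ ?_
  exact SB.and hs k3 (SB.and hs k1 k2)

theorem Red.trans {A B C : MM s → Prop} (h1 : Red (SS hs) A B) (h2 : Red (SS hs) B C) :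
    Red (SS hs) A C := by
  rw [red_iff] at h1 ⊢
  exact ⟨SB.trans hs h2 h1.1, SB.trans hs h2 h1.2⟩

/-- Positive queries to a c.e. set are c.e. -/
theorem sp_pos {A : MM s → Prop} (hA : CE (SS hs) A) :
    SP (SS hs) (fun v => Pos (SS hs) (v 0) A) := by
  rw [ce_iff_sp] at hA
  have hA' : SP (SS hs) (fun v : ℕ → MM s => A (v 0)) := hA
  have h1 : SP (SS hs) (fun v : ℕ → MM s => ∀ x, (SS hs).lt x (v 0) →
      (¬ Elt (SS hs) x (v 0) ∨ A x)) :=
    @sp_all s hs (fun v => v 0) (fun x v => ¬ Elt (SS hs) x (v 0) ∨ A x) _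
      (@sp_or s hs _ _ inferInstance hA')
  refine SP.congr (SS hs) h1 fun v => ?_
  constructor
  · intro h x hx
    rcases h x (elt_lt hs hx) with h | h
    · exact absurd hx h
    · exact h
  · intro h x _
    by_cases hx : Elt (SS hs) x (v 0)
    · exact Or.inr (h x hx)
    · exact Or.inl hx

/-- For a c.e. set `A` only the negative part has to be shown. -/
theorem red_of_neg_sb {A B : MM s → Prop} (hA : CE (SS hs) A)
    (h : SB hs B (fun v => Neg (SS hs) (v 0) A)) : Red (SS hs) A B :=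
  (red_iff hs A B).2 ⟨SB.of_sp hs (sp_pos hs hA), h⟩

/-- Many-one reductions. -/
theorem red_of_neg_sb_of_red {A B C : MM s → Prop} (hA : CE (SS hs) A) (hC : Red (SS hs) C B)
    (h : SB hs C (fun v => Neg (SS hs) (v 0) A)) : Red (SS hs) A B :=
  red_of_neg_sb hs hA (SB.trans hs hC h)

end Pool.Agent.BSig
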