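import Pool.Agent.Work.MP_510745_lc.Model

/-!
# `Σ₁` relations with parameters

`Mt S g`: `g` is a term function with parameters; `DP S R`: `R` is a bounded relation with
parameters; `SP S R`: `R` is a `Σ₁` relation with parameters (relations on valuations `ℕ → M`).
Closure properties as type class instances, in any structure `S` for arithmetic.
-/

namespace Pool.Agent.BSig

open Filter

section general

variable {M : Type}

/-- Bounded existential quantifier. -/
def Fm.ex (t : Tm) (f : Fm) : Fm := .neg (.all t (.neg f))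

theorem holds_ex (S : AStr M) (t : Tm) (f : Fm) (v : ℕ → M) :
    (Fm.ex t f).holds S v ↔ ∃ x, S.lt x (t.val S v) ∧ f.holds S (psh x v) := by
  simp only [Fm.ex, Fm.holds, not_forall, not_not, exists_prop]

/-- Interleaving of two sequences. -/
def mix {A : Type} (v c : ℕ → A) : ℕ → A := fun i => if i % 2 = 0 then v (i / 2) else c (i / 2)

@[simp] theorem mix_even {A : Type} (v c : ℕ → A) (j : ℕ) : mix v c (2 * j) = v j := by
  unfold mix
  have h1 : 2 * j % 2 = 0 := by omega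
  have h2 : 2 * j / 2 = j := by omega
  rw [if_pos h1, h2]

@[simp] theorem mix_odd {A : Type} (v c : ℕ → A) (j : ℕ) : mix v c (2 * j + 1) = c j := by
  unfold mix
  have h1 : ¬ (2 * j + 1) % 2 = 0 := by omega
  have h2 : (2 * j + 1) / 2 = j := by omega
  rw [if_neg h1, h2]

theorem mix_map {A B : Type} (φ : A → B) (v c : ℕ → A) :
    (fun i => φ (mix v c i)) = mix (fun i => φ (v i)) (fun i => φ (c i)) := by
  funext i
  unfold mix
  split_ifs <;> rfl

theorem psh_map {A B : Type} (φ : A → B) (x : A) (v : ℕ → A) :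
    (fun i => φ (psh x v i)) = psh (φ x) (fun i => φ (v i)) := by
  funext i
  cases i <;> rfl

variable (S : AStr M)

/-- Term functions with parameters. -/
class Mt (g : (ℕ → M) → M) : Prop where
  ex : ∃ (t : Tm) (c : ℕ → M), ∀ v, g v = t.val S (mix v c)

/-- Bounded relations with parameters. -/
class DP (R : (ℕ → M) → Prop) : Prop where
  ex : ∃ (f : Fm) (c : ℕ → M), ∀ v, R v ↔ f.holds S (mix v c)

/-- `Σ₁` relations with parameters. -/
class SP (R : (ℕ → M) → Prop) : Prop where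
  ex : ∃ (f : Fm) (c : ℕ → M), ∀ v, R v ↔ ∃ y, f.holds S (psh y (mix v c))

/-! ### Merging of parameters -/

/-- A term over `mix v c` as a term over `mix v (mix c c')`. -/
theorem Tm.merge_left (t : Tm) (c c' : ℕ → M) :
    ∃ t' : Tm, ∀ v, t'.val S (mix v (mix c c')) = t.val S (mix v c) := by
  refine ⟨t.subst (mix (fun j => .var (2 * j)) (fun j => .var (2 * (2 * j) + 1))), fun v => ?_⟩
  rw [Tm.val_subst, mix_map (fun u : Tm => u.val S (mix v (mix c c')))]
  simp only [Tm.val, mix_even, mix_odd]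

theorem Tm.merge_right (t : Tm) (c c' : ℕ → M) :
    ∃ t' : Tm, ∀ v, t'.val S (mix v (mix c c')) = t.val S (mix v c') := by
  refine ⟨t.subst (mix (fun j => .var (2 * j)) (fun j => .var (2 * (2 * j + 1) + 1))), fun v => ?_⟩
  rw [Tm.val_subst, mix_map (fun u : Tm => u.val S (mix v (mix c c')))]
  simp only [Tm.val, mix_even, mix_odd]

theorem Fm.merge_left (f : Fm) (c c' : ℕ → M) :
    ∃ f' : Fm, ∀ v, f'.holds S (mix v (mix c c')) ↔ f.holds S (mix v c) := by
  refine ⟨f.subst (mix (fun j => .var (2 * j)) (fun j => .var (2 * (2 * j) + 1))), fun v => ?_⟩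
  rw [Fm.holds_subst, mix_map (fun u : Tm => u.val S (mix v (mix c c')))]
  simp only [Tm.val, mix_even, mix_odd]

theorem Fm.merge_right (f : Fm) (c c' : ℕ → M) :
    ∃ f' : Fm, ∀ v, f'.holds S (mix v (mix c c')) ↔ f.holds S (mix v c') := by
  refine ⟨f.subst (mix (fun j => .var (2 * j)) (fun j => .var (2 * (2 * j + 1) + 1))), fun v => ?_⟩
  rw [Fm.holds_subst, mix_map (fun u : Tm => u.val S (mix v (mix c c')))]
  simp only [Tm.val, mix_even, mix_odd]

theorem Fm.merge_left' (f : Fm) (c c' : ℕ → M) :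
    ∃ f' : Fm, ∀ y v, f'.holds S (psh y (mix v (mix c c'))) ↔ f.holds S (psh y (mix v c)) := by
  refine ⟨f.subst (psh (.var 0) (mix (fun j => .var (2 * j + 1))
    (fun j => .var (2 * (2 * j) + 1 + 1)))), fun y v => ?_⟩
  rw [Fm.holds_subst, psh_map (fun u : Tm => u.val S (psh y (mix v (mix c c')))),
    mix_map (fun u : Tm => u.val S (psh y (mix v (mix c c'))))]
  simp only [Tm.val, psh, mix_even, mix_odd]

theorem Fm.merge_right' (f : Fm) (c c' : ℕ → M) :
    ∃ f' : Fm, ∀ y v, f'.holds S (psh y (mix v (mix c c'))) ↔ f.holds S (psh y (mix v c')) := by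
  refine ⟨f.subst (psh (.var 0) (mix (fun j => .var (2 * j + 1))
    (fun j => .var (2 * (2 * j + 1) + 1 + 1)))), fun y v => ?_⟩
  rw [Fm.holds_subst, psh_map (fun u : Tm => u.val S (psh y (mix v (mix c c')))),
    mix_map (fun u : Tm => u.val S (psh y (mix v (mix c c'))))]
  simp only [Tm.val, psh, mix_even, mix_odd]

/-! ### Term functions -/

instance mt_var (i : ℕ) : Mt S (fun v => v i) :=
  ⟨⟨.var (2 * i), fun _ => S.zero, fun v => by simp only [Tm.val, mix_even]⟩⟩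

instance mt_const (d : M) : Mt S (fun _ => d) :=
  ⟨⟨.var (2 * 0 + 1), fun _ => d, fun v => by simp only [Tm.val, mix_odd]⟩⟩

instance mt_add {g h : (ℕ → M) → M} [hg : Mt S g] [hh : Mt S h] :
    Mt S (fun v => S.add (g v) (h v)) := by
  obtain ⟨t, c, ht⟩ := hg.ex
  obtain ⟨u, d, hu⟩ := hh.ex
  obtain ⟨t', ht'⟩ := t.merge_left S c d
  obtain ⟨u', hu'⟩ := u.merge_right S c d
  exact ⟨⟨.add t' u', mix c d, fun v => by simp only [Tm.val, ht', hu', ht, hu]⟩⟩

instance mt_mul {g h : (ℕ → M) → M} [hg : Mt S g] [hh : Mt S h] :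
    Mt S (fun v => S.mul (g v) (h v)) := by
  obtain ⟨t, c, ht⟩ := hg.ex
  obtain ⟨u, d, hu⟩ := hh.ex
  obtain ⟨t', ht'⟩ := t.merge_left S c d
  obtain ⟨u', hu'⟩ := u.merge_right S c d
  exact ⟨⟨.mul t' u', mix c d, fun v => by simp only [Tm.val, ht', hu', ht, hu]⟩⟩

instance mt_pow {g : (ℕ → M) → M} [hg : Mt S g] : Mt S (fun v => S.pow (g v)) := by
  obtain ⟨t, c, ht⟩ := hg.ex
  exact ⟨⟨.pow t, c, fun v => by simp only [Tm.val, ht]⟩⟩

/-! ### Bounded relations -/

theorem DP.congr {R Q : (ℕ → M) → Prop} (h : DP S R) (e : ∀ v, R v ↔ Q v) : DP S Q := by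
  obtain ⟨f, c, hf⟩ := h.ex
  exact ⟨⟨f, c, fun v => (e v).symm.trans (hf v)⟩⟩

instance dp_eq {g h : (ℕ → M) → M} [hg : Mt S g] [hh : Mt S h] : DP S (fun v => g v = h v) := by
  obtain ⟨t, c, ht⟩ := hg.ex
  obtain ⟨u, d, hu⟩ := hh.ex
  obtain ⟨t', ht'⟩ := t.merge_left S c d
  obtain ⟨u', hu'⟩ := u.merge_right S c d
  exact ⟨⟨.eq t' u', mix c d, fun v => by simp only [Fm.holds, ht', hu', ht, hu]⟩⟩

instance dp_lt {g h : (ℕ → M) → M} [hg : Mt S g] [hh : Mt S h] :
    DP S (fun v => S.lt (g v) (h v)) := by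
  obtain ⟨t, c, ht⟩ := hg.ex
  obtain ⟨u, d, hu⟩ := hh.ex
  obtain ⟨t', ht'⟩ := t.merge_left S c d
  obtain ⟨u', hu'⟩ := u.merge_right S c d
  exact ⟨⟨.lt t' u', mix c d, fun v => by simp only [Fm.holds, ht', hu', ht, hu]⟩⟩

instance dp_not {R : (ℕ → M) → Prop} [hR : DP S R] : DP S (fun v => ¬ R v) := by
  obtain ⟨f, c, hf⟩ := hR.ex
  exact ⟨⟨.neg f, c, fun v => by simp only [Fm.holds, hf]⟩⟩

instance dp_and {R Q : (ℕ → M) → Prop} [hR : DP S R] [hQ : DP S Q] :
    DP S (fun v => R v ∧ Q v) := by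
  obtain ⟨f, c, hf⟩ := hR.ex
  obtain ⟨g, d, hg⟩ := hQ.ex
  obtain ⟨f', hf'⟩ := f.merge_left S c d
  obtain ⟨g', hg'⟩ := g.merge_right S c d
  exact ⟨⟨.and f' g', mix c d, fun v => by simp only [Fm.holds, hf', hg', hf, hg]⟩⟩

instance dp_or {R Q : (ℕ → M) → Prop} [hR : DP S R] [hQ : DP S Q] : DP S (fun v => R v ∨ Q v) :=
  DP.congr S (R := fun v => ¬ (¬ R v ∧ ¬ Q v)) inferInstance (fun v => by tauto)

instance dp_imp {R Q : (ℕ → M) → Prop} [hR : DP S R] [hQ : DP S Q] : DP S (fun v => (R v → Q v)) :=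
  DP.congr S (R := fun v => ¬ (R v ∧ ¬ Q v)) inferInstance (fun v => by tauto)

instance dp_iff {R Q : (ℕ → M) → Prop} [hR : DP S R] [hQ : DP S Q] :
    DP S (fun v => (R v ↔ Q v)) :=
  DP.congr S (R := fun v => (R v → Q v) ∧ (Q v → R v)) inferInstance (fun v => by tauto)

/-- The substitution that turns the valuation `x, mix v c` into `mix (x, v) c`. -/
def sPsh : ℕ → Tm := mix (psh (.var 0) (fun j => .var (2 * j + 1))) (fun j => .var (2 * j + 1 + 1))

theorem val_sPsh (x : M) (v c : ℕ → M) :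
    (fun i => (sPsh i).val S (psh x (mix v c))) = mix (psh x v) c := by
  unfold sPsh
  rw [mix_map (fun u : Tm => u.val S (psh x (mix v c)))]
  congr 1
  · rw [psh_map (fun u : Tm => u.val S (psh x (mix v c)))]
    simp only [Tm.val, psh, mix_even]
  · simp only [Tm.val, psh, mix_odd]

instance dp_all {g : (ℕ → M) → M} {R : M → (ℕ → M) → Prop} [hg : Mt S g]
    [hR : DP S (fun v => R (v 0) (fun i => v (i + 1)))] :
    DP S (fun v => ∀ x, S.lt x (g v) → R x v) := by
  obtain ⟨t, c, ht⟩ := hg.ex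
  obtain ⟨f, d, hf⟩ := hR.ex
  obtain ⟨t', ht'⟩ := t.merge_left S c d
  obtain ⟨f', hf'⟩ := f.merge_right S c d
  refine ⟨⟨.all t' (f'.subst sPsh), mix c d, fun v => ?_⟩⟩
  simp only [Fm.holds, ht', ← ht]
  refine forall_congr' fun x => imp_congr_right fun _ => ?_
  rw [Fm.holds_subst, val_sPsh, hf', ← hf]
  simp only [psh]

instance dp_ex {g : (ℕ → M) → M} {R : M → (ℕ → M) → Prop} [hg : Mt S g]
    [hR : DP S (fun v => R (v 0) (fun i => v (i + 1)))] :
    DP S (fun v => ∃ x, S.lt x (g v) ∧ R x v) :=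
  DP.congr S (R := fun v => ¬ ∀ x, S.lt x (g v) → ¬ R x v) inferInstance (fun v => by
    simp only [not_forall, not_not, exists_prop])

/-- The merged parameters of countably many parametrised terms. -/
def mrg (c : ℕ → ℕ → M) : ℕ → M := fun m => c m.unpair.1 m.unpair.2

theorem mt_sub_aux {t : ℕ → Tm} {c : ℕ → ℕ → M} (c0 : ℕ → M) :
    ∃ t' : ℕ → Tm, (∀ i v, (t' i).val S (mix v (mix c0 (mrg c))) = (t i).val S (mix v (c i))) := by
  refine ⟨fun i => (t i).subst (mix (fun j => .var (2 * j))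
    (fun j => .var (2 * (2 * (Nat.pair i j) + 1) + 1))), fun i v => ?_⟩
  rw [Tm.val_subst, mix_map (fun u : Tm => u.val S (mix v (mix c0 (mrg c))))]
  simp only [Tm.val, mix_even, mix_odd, mrg, Nat.unpair_pair]

/-- Substitution of parametrised terms in a bounded relation. -/
theorem DP.sub {R : (ℕ → M) → Prop} (hR : DP S R) {g : ℕ → (ℕ → M) → M} (hg : ∀ i, Mt S (g i)) :
    DP S (fun v => R (fun i => g i v)) := by
  obtain ⟨f, c, hf⟩ := hR.ex
  choose t d ht using fun i => (hg i).ex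
  obtain ⟨t', ht'⟩ := mt_sub_aux S (t := t) (c := d) c
  refine ⟨⟨f.subst (mix t' (fun j => .var (2 * (2 * j) + 1))), mix c (mrg d), fun v => ?_⟩⟩
  rw [Fm.holds_subst, mix_map (fun u : Tm => u.val S (mix v (mix c (mrg d)))), hf]
  simp only [Tm.val, mix_odd, mix_even, ht', ← ht]

/-! ### `Σ₁` relations -/

theorem SP.congr {R Q : (ℕ → M) → Prop} (h : SP S R) (e : ∀ v, R v ↔ Q v) : SP S Q := by
  obtain ⟨f, c, hf⟩ := h.ex
  exact ⟨⟨f, c, fun v => (e v).symm.trans (hf v)⟩⟩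

/-- Bounded relations are `Σ₁`. -/
instance (priority := 50) sp_dp [Nonempty M] {R : (ℕ → M) → Prop} [hR : DP S R] : SP S R := by
  obtain ⟨f, c, hf⟩ := hR.ex
  refine ⟨⟨f.subst (fun i => .var (i + 1)), c, fun v => ?_⟩⟩
  simp only [Fm.holds_subst, Tm.val, psh, hf]
  exact ⟨fun h => ⟨Classical.arbitrary M, h⟩, fun ⟨_, h⟩ => h⟩

/-- Substitution of parametrised terms in a `Σ₁` relation. -/
theorem SP.sub {R : (ℕ → M) → Prop} (hR : SP S R) {g : ℕ → (ℕ → M) → M} (hg : ∀ i, Mt S (g i)) :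
    SP S (fun v => R (fun i => g i v)) := by
  obtain ⟨f, c, hf⟩ := hR.ex
  choose t d ht using fun i => (hg i).ex
  obtain ⟨t', ht'⟩ := mt_sub_aux S (t := t) (c := d) c
  refine ⟨⟨f.subst (psh (.var 0) (mix (fun i => (t' i).subst (fun j => .var (j + 1)))
    (fun j => .var (2 * (2 * j) + 1 + 1)))), mix c (mrg d), fun v => ?_⟩⟩
  rw [hf]
  refine exists_congr fun y => ?_
  rw [Fm.holds_subst, psh_map (fun u : Tm => u.val S (psh y (mix v (mix c (mrg d))))),
    mix_map (fun u : Tm => u.val S (psh y (mix v (mix c (mrg d)))))]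
  simp only [Tm.val, Tm.val_subst, psh, mix_odd, mix_even, ht', ← ht]

/-- Directedness. -/
def Dir : Prop := ∀ x y, ∃ z, S.lt x z ∧ S.lt y z

/-- The substitution that omits the second entry. -/
def sSkip : ℕ → Tm := psh (.var 0) (fun j => .var (j + 2))

theorem val_sSkip (y w : M) (u : ℕ → M) :
    (fun i => (sSkip i).val S (psh y (psh w u))) = psh y u := by
  unfold sSkip
  rw [psh_map (fun u' : Tm => u'.val S (psh y (psh w u)))]
  rfl

theorem SP.and (hS : Dir S) {R Q : (ℕ → M) → Prop} (hR : SP S R) (hQ : SP S Q) :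
    SP S (fun v => R v ∧ Q v) := by
  obtain ⟨f, c, hf⟩ := hR.ex
  obtain ⟨g, d, hg⟩ := hQ.ex
  obtain ⟨f', hf'⟩ := f.merge_left' S c d
  obtain ⟨g', hg'⟩ := g.merge_right' S c d
  refine ⟨⟨Fm.and (Fm.ex (.var 0) (f'.subst sSkip)) (Fm.ex (.var 0) (g'.subst sSkip)),
    mix c d, fun v => ?_⟩⟩
  simp only [Fm.holds, holds_ex, Fm.holds_subst, val_sSkip, hf', hg', hf, hg]
  simp only [Tm.val, psh]
  constructor
  · rintro ⟨⟨y, hy⟩, z, hz⟩
    obtain ⟨w, h1, h2⟩ := hS y z
    exact ⟨w, ⟨y, h1, hy⟩, z, h2, hz⟩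
  · rintro ⟨w, ⟨y, _, hy⟩, z, _, hz⟩
    exact ⟨⟨y, hy⟩, z, hz⟩

theorem SP.or {R Q : (ℕ → M) → Prop} (hR : SP S R) (hQ : SP S Q) :
    SP S (fun v => R v ∨ Q v) := by
  obtain ⟨f, c, hf⟩ := hR.ex
  obtain ⟨g, d, hg⟩ := hQ.ex
  obtain ⟨f', hf'⟩ := f.merge_left' S c d
  obtain ⟨g', hg'⟩ := g.merge_right' S c d
  refine ⟨⟨Fm.neg (Fm.and (Fm.neg f') (Fm.neg g')), mix c d, fun v => ?_⟩⟩
  simp only [Fm.holds, hf', hg', hf, hg]
  constructor
  · rintro (⟨y, hy⟩ | ⟨y, hy⟩)
    · exact ⟨y, by tauto⟩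
    · exact ⟨y, by tauto⟩
  · rintro ⟨y, hy⟩
    by_cases h : f.holds S (psh y (mix v c))
    · exact Or.inl ⟨y, h⟩
    · exact Or.inr ⟨y, by tauto⟩

/-- The substitution that turns the valuation `y, x, w, mix v c` into `y, mix (x, v) c`. -/
def sEx : ℕ → Tm := psh (.var 0) (mix (psh (.var 1) (fun j => .var (2 * j + 3)))
  (fun j => .var (2 * j + 1 + 3)))

theorem val_sEx (y x w : M) (v c : ℕ → M) :
    (fun i => (sEx i).val S (psh y (psh x (psh w (mix v c))))) = psh y (mix (psh x v) c) := by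
  unfold sEx
  rw [psh_map (fun u' : Tm => u'.val S (psh y (psh x (psh w (mix v c))))),
    mix_map (fun u' : Tm => u'.val S (psh y (psh x (psh w (mix v c))))),
    psh_map (fun u' : Tm => u'.val S (psh y (psh x (psh w (mix v c)))))]
  simp only [Tm.val, psh, mix_even, mix_odd]

theorem SP.exists (hS : Dir S) {R : M → (ℕ → M) → Prop}
    (hR : SP S (fun v => R (v 0) (fun i => v (i + 1)))) : SP S (fun v => ∃ x, R x v) := by
  obtain ⟨f, c, hf⟩ := hR.ex
  refine ⟨⟨Fm.ex (.var 0) (Fm.ex (.var 1) (f.subst sEx)), c, fun v => ?_⟩⟩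
  simp only [holds_ex, Fm.holds_subst, val_sEx]
  simp only [Tm.val, psh]
  constructor
  · rintro ⟨x, hx⟩
    have h1 := (hf (psh x v)).1 hx
    obtain ⟨y, hy⟩ := h1
    obtain ⟨w, h1, h2⟩ := hS x y
    exact ⟨w, x, h1, y, h2, hy⟩
  · rintro ⟨w, x, _, y, _, h⟩
    exact ⟨x, (hf (psh x v)).2 ⟨y, h⟩⟩

/-- The substitution that turns the valuation `y, x, w, mix v c` into `x, mix v c`. -/
def sTl : ℕ → Tm := fun j => .var (j + 1)

theorem SP.forall (hB : BSigma1 S) {g : (ℕ → M) → M} {R : M → (ℕ → M) → Prop} (hg : Mt S g)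
    (hR : SP S (fun v => R (v 0) (fun i => v (i + 1)))) :
    SP S (fun v => ∀ x, S.lt x (g v) → R x v) := by
  obtain ⟨f, c, hf⟩ := hR.ex
  obtain ⟨t, d, ht⟩ := hg.ex
  obtain ⟨f', hf'⟩ := f.merge_left' S c d
  obtain ⟨t', ht'⟩ := t.merge_right S c d
  refine ⟨⟨Fm.all (t'.subst sTl) (Fm.ex (.var 1) (f'.subst sEx)), mix c d, fun v => ?_⟩⟩
  have e1 : ∀ w, (t'.subst sTl).val S (psh w (mix v (mix c d))) = g v := by
    intro w
    rw [Tm.val_subst]
    simp only [sTl, Tm.val, psh]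
    rw [ht', ← ht]
  have e2 : ∀ x, R x v ↔ ∃ y, f'.holds S (psh y (mix (psh x v) (mix c d))) := by
    intro x
    have := hf (psh x v)
    simp only [psh] at this
    rw [this]
    simp only [hf']
  simp only [Fm.holds, holds_ex, Fm.holds_subst, val_sEx, e1]
  simp only [Tm.val, psh]
  constructor
  · intro h
    -- collection for the formula `f'` with a dummy variable
    have h1 := hB (f'.subst (psh (.var 1) (mix (psh (.var 2) (fun j => .var (2 * j + 3)))
      (fun j => .var (2 * j + 1 + 3))))) (mix v (mix c d)) (g v) (fun x hx => by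
        obtain ⟨y, hy⟩ := (e2 x).1 (h x hx)
        refine ⟨y, y, ?_⟩
        rw [Fm.holds_subst, psh_map (fun u : Tm => u.val S _), mix_map (fun u : Tm => u.val S _),
          psh_map (fun u : Tm => u.val S _)]
        simpa only [Tm.val, psh, mix_even, mix_odd] using hy)
    obtain ⟨w, hw⟩ := h1
    refine ⟨w, fun x hx => ?_⟩
    obtain ⟨y, hy, z, hz⟩ := hw x hx
    refine ⟨y, hy, ?_⟩
    rw [Fm.holds_subst, psh_map (fun u : Tm => u.val S _), mix_map (fun u : Tm => u.val S _),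
      psh_map (fun u : Tm => u.val S _)] at hz
    simpa only [Tm.val, psh, mix_even, mix_odd] using hz
  · rintro ⟨w, hw⟩ x hx
    obtain ⟨y, _, hy⟩ := hw x hx
    exact (e2 x).2 ⟨y, hy⟩

end general

end Pool.Agent.BSig
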