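import Pool.Agent.Work.MP_510745_lc.MC.Sig

/-!
# `Σ₁` relations in the model `SS hs`
-/

namespace Pool.Agent.BSig

open Filter

variable {s : ℕ → ℕ → ℕ}

theorem nonempty_MM (hs : Gr s) : Nonempty (MM s) := ⟨(SS hs).zero⟩

theorem lt_iff (hs : Gr s) (x y : MM s) : (SS hs).lt x y ↔ ∀ᶠ k in Uf, rep x k < rep y k := Iff.rfl

theorem dirM (hs : Gr s) : Dir (SS hs) := by
  intro x y
  have hb := (((rep_bd x).add hs (rep_bd y)).add hs (Bd.const hs 1))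
  refine ⟨mk _ hb, ?_, ?_⟩
  · change ∀ᶠ k in Uf, _
    filter_upwards [rep_mk _ hb] with k hk
    rw [hk]; omega
  · change ∀ᶠ k in Uf, _
    filter_upwards [rep_mk _ hb] with k hk
    rw [hk]; omega

instance sp_of_dp (hs : Gr s) {R : (ℕ → MM s) → Prop} [hR : DP (SS hs) R] : SP (SS hs) R :=
  @sp_dp _ (SS hs) (nonempty_MM hs) R hR

instance sp_and (hs : Gr s) {R Q : (ℕ → MM s) → Prop} [hR : SP (SS hs) R] [hQ : SP (SS hs) Q] :
    SP (SS hs) (fun v => R v ∧ Q v) := hR.and (SS hs) (dirM hs) hQ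

instance sp_or (hs : Gr s) {R Q : (ℕ → MM s) → Prop} [hR : SP (SS hs) R] [hQ : SP (SS hs) Q] :
    SP (SS hs) (fun v => R v ∨ Q v) := hR.or (SS hs) hQ

instance sp_ex (hs : Gr s) {R : MM s → (ℕ → MM s) → Prop}
    [hR : SP (SS hs) (fun v => R (v 0) (fun i => v (i + 1)))] :
    SP (SS hs) (fun v => ∃ x, R x v) := SP.exists (SS hs) (dirM hs) hR

instance sp_all (hs : Gr s) {g : (ℕ → MM s) → MM s} {R : MM s → (ℕ → MM s) → Prop}
    [hg : Mt (SS hs) g] [hR : SP (SS hs) (fun v => R (v 0) (fun i => v (i + 1)))] :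
    SP (SS hs) (fun v => ∀ x, (SS hs).lt x (g v) → R x v) :=
  SP.forall (SS hs) (bSigma1 hs) hg hR

/-- The germ of a bounded relation on the naturals. -/
theorem dp_germ (hs : Gr s) {P : (ℕ → ℕ) → Prop} (hP : D0 P) :
    DP (SS hs) (fun v : ℕ → MM s => ∀ᶠ k in Uf, P (fun i => rep (v i) k)) := by
  obtain ⟨f, hf⟩ := hP.ex
  refine ⟨⟨f.subst (fun j => .var (2 * j)), fun _ => (SS hs).zero, fun v => ?_⟩⟩
  rw [Fm.holds_subst]
  simp only [Tm.val, mix_even]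
  rw [los]
  simp only [hf]

/-- The germ of a bounded relation on the naturals at parametrised terms. -/
theorem dp_germ' (hs : Gr s) {P : (ℕ → ℕ) → Prop} (hP : D0 P) {g : ℕ → (ℕ → MM s) → MM s}
    (hg : ∀ i, Mt (SS hs) (g i)) :
    DP (SS hs) (fun v : ℕ → MM s => ∀ᶠ k in Uf, P (fun i => rep (g i v) k)) :=
  DP.sub (SS hs) (dp_germ hs hP) hg

/-- A list of term functions as an assignment. -/
noncomputable def asgM (hs : Gr s) : List ((ℕ → MM s) → MM s) → ℕ → (ℕ → MM s) → MM s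
  | [], _ => fun _ => (SS hs).zero
  | (g :: _), 0 => g
  | (_ :: l), (i + 1) => asgM hs l i

theorem asgM_mt (hs : Gr s) : ∀ (l : List ((ℕ → MM s) → MM s)), (∀ g ∈ l, Mt (SS hs) g) →
    ∀ i, Mt (SS hs) (asgM hs l i)
  | [], _, _ => mt_const _ _
  | (g :: _), h, 0 => h g (by simp)
  | (_ :: l), h, (i + 1) => asgM_mt hs l (fun g hg => h g (by simp [hg])) i

section germs

variable (hs : Gr s) {g0 g1 g2 g3 g4 g5 g6 g7 g8 g9 : (ℕ → MM s) → MM s} [h0 : Mt (SS hs) g0]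
  [h1 : Mt (SS hs) g1] [h2 : Mt (SS hs) g2] [h3 : Mt (SS hs) g3] [h4 : Mt (SS hs) g4]
  [h5 : Mt (SS hs) g5] [h6 : Mt (SS hs) g6] [h7 : Mt (SS hs) g7] [h8 : Mt (SS hs) g8]
  [h9 : Mt (SS hs) g9]

include h0 in
theorem dp_g1 {P : ℕ → Prop} (h : D0 (fun v => P (v 0))) :
    DP (SS hs) (fun v => ∀ᶠ k in Uf, P (rep (g0 v) k)) :=
  dp_germ' hs h (g := asgM hs [g0]) (asgM_mt hs _ (by simp [*]))

include h0 h1 in
theorem dp_g2 {P : ℕ → ℕ → Prop} (h : D0 (fun v => P (v 0) (v 1))) :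
    DP (SS hs) (fun v => ∀ᶠ k in Uf, P (rep (g0 v) k) (rep (g1 v) k)) :=
  dp_germ' hs h (g := asgM hs [g0, g1]) (asgM_mt hs _ (by simp [*]))

include h0 h1 h2 in
theorem dp_g3 {P : ℕ → ℕ → ℕ → Prop} (h : D0 (fun v => P (v 0) (v 1) (v 2))) :
    DP (SS hs) (fun v => ∀ᶠ k in Uf, P (rep (g0 v) k) (rep (g1 v) k) (rep (g2 v) k)) :=
  dp_germ' hs h (g := asgM hs [g0, g1, g2]) (asgM_mt hs _ (by simp [*]))

include h0 h1 h2 h3 in
theorem dp_g4 {P : ℕ → ℕ → ℕ → ℕ → Prop} (h : D0 (fun v => P (v 0) (v 1) (v 2) (v 3))) :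
    DP (SS hs) (fun v => ∀ᶠ k in Uf, P (rep (g0 v) k) (rep (g1 v) k) (rep (g2 v) k)
      (rep (g3 v) k)) :=
  dp_germ' hs h (g := asgM hs [g0, g1, g2, g3]) (asgM_mt hs _ (by simp [*]))

include h0 h1 h2 h3 h4 in
theorem dp_g5 {P : ℕ → ℕ → ℕ → ℕ → ℕ → Prop}
    (h : D0 (fun v => P (v 0) (v 1) (v 2) (v 3) (v 4))) :
    DP (SS hs) (fun v => ∀ᶠ k in Uf, P (rep (g0 v) k) (rep (g1 v) k) (rep (g2 v) k)
      (rep (g3 v) k) (rep (g4 v) k)) :=
  dp_germ' hs h (g := asgM hs [g0, g1, g2, g3, g4]) (asgM_mt hs _ (by simp [*]))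

include h0 h1 h2 h3 h4 h5 in
theorem dp_g6 {P : ℕ → ℕ → ℕ → ℕ → ℕ → ℕ → Prop}
    (h : D0 (fun v => P (v 0) (v 1) (v 2) (v 3) (v 4) (v 5))) :
    DP (SS hs) (fun v => ∀ᶠ k in Uf, P (rep (g0 v) k) (rep (g1 v) k) (rep (g2 v) k)
      (rep (g3 v) k) (rep (g4 v) k) (rep (g5 v) k)) :=
  dp_germ' hs h (g := asgM hs [g0, g1, g2, g3, g4, g5]) (asgM_mt hs _ (by simp [*]))

include h0 h1 h2 h3 h4 h5 h6 in
theorem dp_g7 {P : ℕ → ℕ → ℕ → ℕ → ℕ → ℕ → ℕ → Prop}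
    (h : D0 (fun v => P (v 0) (v 1) (v 2) (v 3) (v 4) (v 5) (v 6))) :
    DP (SS hs) (fun v => ∀ᶠ k in Uf, P (rep (g0 v) k) (rep (g1 v) k) (rep (g2 v) k)
      (rep (g3 v) k) (rep (g4 v) k) (rep (g5 v) k) (rep (g6 v) k)) :=
  dp_germ' hs h (g := asgM hs [g0, g1, g2, g3, g4, g5, g6]) (asgM_mt hs _ (by simp [*]))

include h0 h1 h2 h3 h4 h5 h6 h7 in
theorem dp_g8 {P : ℕ → ℕ → ℕ → ℕ → ℕ → ℕ → ℕ → ℕ → Prop}
    (h : D0 (fun v => P (v 0) (v 1) (v 2) (v 3) (v 4) (v 5) (v 6) (v 7))) :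
    DP (SS hs) (fun v => ∀ᶠ k in Uf, P (rep (g0 v) k) (rep (g1 v) k) (rep (g2 v) k)
      (rep (g3 v) k) (rep (g4 v) k) (rep (g5 v) k) (rep (g6 v) k) (rep (g7 v) k)) :=
  dp_germ' hs h (g := asgM hs [g0, g1, g2, g3, g4, g5, g6, g7]) (asgM_mt hs _ (by simp [*]))

include h0 h1 h2 h3 h4 h5 h6 h7 h8 in
theorem dp_g9 {P : ℕ → ℕ → ℕ → ℕ → ℕ → ℕ → ℕ → ℕ → ℕ → Prop}
    (h : D0 (fun v => P (v 0) (v 1) (v 2) (v 3) (v 4) (v 5) (v 6) (v 7) (v 8))) :
    DP (SS hs) (fun v => ∀ᶠ k in Uf, P (rep (g0 v) k) (rep (g1 v) k) (rep (g2 v) k)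
      (rep (g3 v) k) (rep (g4 v) k) (rep (g5 v) k) (rep (g6 v) k) (rep (g7 v) k)
      (rep (g8 v) k)) :=
  dp_germ' hs h (g := asgM hs [g0, g1, g2, g3, g4, g5, g6, g7, g8]) (asgM_mt hs _ (by simp [*]))

include h0 h1 h2 h3 h4 h5 h6 h7 h8 h9 in
theorem dp_g10 {P : ℕ → ℕ → ℕ → ℕ → ℕ → ℕ → ℕ → ℕ → ℕ → ℕ → Prop}
    (h : D0 (fun v => P (v 0) (v 1) (v 2) (v 3) (v 4) (v 5) (v 6) (v 7) (v 8) (v 9))) :
    DP (SS hs) (fun v => ∀ᶠ k in Uf, P (rep (g0 v) k) (rep (g1 v) k) (rep (g2 v) k)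
      (rep (g3 v) k) (rep (g4 v) k) (rep (g5 v) k) (rep (g6 v) k) (rep (g7 v) k)
      (rep (g8 v) k) (rep (g9 v) k)) :=
  dp_germ' hs h (g := asgM hs [g0, g1, g2, g3, g4, g5, g6, g7, g8, g9])
    (asgM_mt hs _ (by simp [*]))

end germs

/-! ### Coded sets -/

instance dp_elt (hs : Gr s) {g h : (ℕ → MM s) → MM s} [hg : Mt (SS hs) g] [hh : Mt (SS hs) h] :
    DP (SS hs) (fun v => Elt (SS hs) (g v) (h v)) :=
  DP.congr (SS hs) (dp_g2 hs (P := fun w z => Bt w z) (g0 := h) (g1 := g) inferInstance)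
    fun v => (elt_iff hs (g v) (h v)).symm

/-- Elements of a coded set are smaller than its code. -/
theorem elt_lt (hs : Gr s) {x a : MM s} (h : Elt (SS hs) x a) : (SS hs).lt x a := by
  rw [elt_iff] at h
  exact h.mono fun _ h => h.lt

/-- Inclusion of coded sets. -/
def Sb (hs : Gr s) (p q : MM s) : Prop := ∀ x, Elt (SS hs) x p → Elt (SS hs) x q

theorem sb_iff (hs : Gr s) (p q : MM s) :
    Sb hs p q ↔ ∀ᶠ k in Uf, ∀ z, Bt (rep p k) z → Bt (rep q k) z := by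
  constructor
  · intro h
    by_contra hc
    rw [← ev_not] at hc
    have h1 : ∀ᶠ k in Uf, ∃ z, z ≤ rep p k ∧ (Bt (rep p k) z ∧ ¬ Bt (rep q k) z) := by
      filter_upwards [hc] with k hk
      push Not at hk
      obtain ⟨z, hz, hz'⟩ := hk
      exact ⟨z, hz.lt.le, hz, hz'⟩
    obtain ⟨x, hx⟩ := choose_fn (rep_bd p) h1
    have h2 := h x ((elt_iff hs _ _).2 (hx.mono fun _ h => h.2.1))
    rw [elt_iff] at h2
    obtain ⟨k, hk1, hk2⟩ := ev_exists (h2.and hx)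
    exact hk2.2.2 hk1
  · intro h x hx
    rw [elt_iff] at hx ⊢
    filter_upwards [h, hx] with k h1 h2
    exact h1 _ h2

instance dp_sb (hs : Gr s) {g h : (ℕ → MM s) → MM s} [hg : Mt (SS hs) g] [hh : Mt (SS hs) h] :
    DP (SS hs) (fun v => Sb hs (g v) (h v)) := by
  refine DP.congr (SS hs) (dp_g2 hs (P := fun w z => ∀ x, x < w → (Bt w x → Bt z x)) (g0 := g)
    (g1 := h) inferInstance) fun v => ?_
  rw [sb_iff]
  refine eventually_congr (Eventually.of_forall fun k => ?_)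
  exact ⟨fun h z hz => h z hz.lt hz, fun h z _ hz => h z hz⟩

theorem Pos.sb (hs : Gr s) {p q : MM s} {B : MM s → Prop} (h : Sb hs p q) (hq : Pos (SS hs) q B) :
    Pos (SS hs) p B := fun x hx => hq x (h x hx)

theorem Neg.sb (hs : Gr s) {p q : MM s} {B : MM s → Prop} (h : Sb hs p q) (hq : Neg (SS hs) q B) :
    Neg (SS hs) p B := fun x hx => hq x (h x hx)

/-- Unions of coded sets. -/
theorem ex_union (hs : Gr s) (p q : MM s) : ∃ r : MM s, ∀ x, Elt (SS hs) x r ↔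
    (Elt (SS hs) x p ∨ Elt (SS hs) x q) := by
  have hb : Bd s (fun k => rep p k ||| rep q k) := by
    refine (((rep_bd p).add hs (rep_bd q)).pow hs).mono (Eventually.of_forall fun k => ?_)
    have h1 : rep p k < 2 ^ (rep p k + rep q k) :=
      lt_of_lt_of_le Nat.lt_two_pow_self (Nat.pow_le_pow_right (by norm_num) (by omega))
    have h2 : rep q k < 2 ^ (rep p k + rep q k) :=
      lt_of_lt_of_le Nat.lt_two_pow_self (Nat.pow_le_pow_right (by norm_num) (by omega))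
    exact (Nat.or_lt_two_pow h1 h2).le
  refine ⟨mk _ hb, fun x => ?_⟩
  rw [elt_iff, elt_iff, elt_iff, ← ev_or]
  refine eventually_congr ?_
  filter_upwards [rep_mk _ hb] with k hk
  rw [hk, bt_iff, bt_iff, bt_iff, Nat.testBit_or, Bool.or_eq_true]

/-- The empty set has a code. -/
theorem elt_zero (hs : Gr s) (x : MM s) : ¬ Elt (SS hs) x (SS hs).zero := by
  rw [elt_iff]
  intro h
  obtain ⟨k, hk, h0⟩ := ev_exists (h.and (rep_zero hs))
  rw [h0] at hk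
  have := hk.lt
  omega

theorem one_ne_zero (hs : Gr s) : (SS hs).one ≠ (SS hs).zero := by
  intro h
  obtain ⟨k, ⟨hk, h0⟩, h1⟩ := ev_exists (((rep_inj.1 h).and (rep_zero hs)).and (rep_one hs))
  omega

/-! ### C.e. sets -/

theorem ce_iff_sp (S : AStr (MM s)) (A : MM s → Prop) : CE S A ↔ SP S (fun v => A (v 0)) := by
  constructor
  · rintro ⟨f, c, hf⟩
    refine ⟨⟨f.subst (psh (.var 0) (psh (.var 1) (fun j => .var (2 * j + 1 + 1)))), c, fun v => ?_⟩⟩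
    rw [hf]
    refine exists_congr fun y => ?_
    rw [Fm.holds_subst, psh_map (fun u : Tm => u.val S _), psh_map (fun u : Tm => u.val S _)]
    simp only [Tm.val, psh, mix_odd]
    rw [← mix_even v c 0]
  · rintro ⟨f, c, hf⟩
    refine ⟨f.subst (psh (.var 0) (mix (fun _ => .var 1) (fun j => .var (j + 2)))), c, fun x => ?_⟩
    have := hf (fun _ => x)
    rw [this]
    refine exists_congr fun y => ?_
    rw [Fm.holds_subst, psh_map (fun u : Tm => u.val S _), mix_map (fun u : Tm => u.val S _)]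
    simp only [Tm.val, psh]

theorem ce4_iff_sp (S : AStr (MM s)) (F : MM s → MM s → MM s → MM s → Prop) :
    CE4 S F ↔ SP S (fun v => F (v 0) (v 1) (v 2) (v 3)) := by
  constructor
  · rintro ⟨f, c, hf⟩
    refine ⟨⟨f.subst (psh (.var 0) (psh (.var (2 * 0 + 1)) (psh (.var (2 * 1 + 1))
      (psh (.var (2 * 2 + 1)) (psh (.var (2 * 3 + 1)) (fun j => .var (2 * j + 1 + 1))))))), c,
      fun v => ?_⟩⟩
    rw [hf]
    refine exists_congr fun y => ?_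
    rw [Fm.holds_subst, psh_map (fun u : Tm => u.val S _), psh_map (fun u : Tm => u.val S _),
      psh_map (fun u : Tm => u.val S _), psh_map (fun u : Tm => u.val S _),
      psh_map (fun u : Tm => u.val S _)]
    simp only [Tm.val, psh, mix_odd]
    rw [← mix_even v c 0, ← mix_even v c 1, ← mix_even v c 2, ← mix_even v c 3]
  · rintro ⟨f, c, hf⟩
    refine ⟨f.subst (psh (.var 0) (mix (fun j => .var (min j 3 + 1)) (fun j => .var (j + 5)))), c,
      fun k i p n => ?_⟩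
    have := hf (fun j => psh k (psh i (psh p (psh n c))) (min j 3))
    simp only [psh] at this
    refine Iff.trans ?_ (this.trans ?_)
    · rfl
    · refine exists_congr fun y => ?_
      rw [Fm.holds_subst, psh_map (fun u : Tm => u.val S _), mix_map (fun u : Tm => u.val S _)]
      simp only [Tm.val, psh]

end Pool.Agent.BSig
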