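import Pool.Agent.Work.MP_510745_lc.MC.Halt
import Pool.Agent.Work.MP_510745_lc.Cover

/-!
MP_510745_lc: there is a model of PA^- + exp + BSigma_1 in which ISigma_1 fails and in which the
degree of a Sigma_1 cut has a minimal cover in the special region.
-/

namespace Pool.Agent.Results.MP_510745_lc.SomeMinimalCover

open Pool.Agent.BSig

/-- There are a model `M` of `PA^- + exp + IΔ₀ + BΣ₁` in which `IΣ₁` fails, a halting set `H` of
`M`, a `Σ₁` cut `I` of `M` and a c.e. set `A` in the special region whose degree is a minimal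
cover of the degree of `I`. -/
theorem result : ∃ (M : Type) (S : AStr M), IsPAMinusExp S ∧ IDelta0 S ∧ BSigma1 S ∧
    ¬ ISigma1 S ∧ ∃ H I A : M → Prop, IsHalting S H ∧ IsCut S I ∧ CE S I ∧
      InRegion S I H A ∧ IsMinCoverP S I A := by
  obtain ⟨H, hH, hH2⟩ := hal_main
  obtain ⟨hA, hIA, hAI, hmin⟩ := minCover
  have key : ∀ A B : MM sx → Prop, RedP (SS gr) A B ↔ Red (SS gr) A B := redP_iff gr
  refine ⟨MM sx, SS gr, isPA gr, iDelta0 gr, bSigma1 gr, not_iSigma1, H, cutI, setA,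
    ⟨hH, fun W hW => ?_⟩, isCut, ceI, ⟨hA, (key _ _).2 hIA, (key _ _).2 (hH2 setA hA).2⟩,
    hA, ⟨(key _ _).2 hIA, fun h => hAI ((key _ _).1 h)⟩, fun B hB h => hmin B hB ?_⟩
  · obtain ⟨e, he⟩ := (hH2 W hW).1
    refine ⟨e, fun x => ?_⟩
    rw [he x, prM_eq]
    rfl
  · exact ⟨(key _ _).1 h.1.1, fun h' => h.1.2 ((key _ _).2 h'), (key _ _).1 h.2.1,
      fun h' => h.2.2 ((key _ _).2 h')⟩

end Pool.Agent.Results.MP_510745_lc.SomeMinimalCover
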